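import Pool.Agent.W2helper34.OT.Norm
import Mathlib.RingTheory.MvPolynomial.MonomialOrder.DegLex

/-!
# Quadratic forms over polynomial rings
-/

set_option autoImplicit false

namespace Pool.Agent.W2helper34.OT

open MvPolynomial MonomialOrder

section bf

variable {n : ℕ} {R : Type} [CommRing R]

/-- the bilinear form of a matrix -/
def bf (A : Matrix (Fin n) (Fin n) R) (x y : Fin n → R) : R := ∑ i, ∑ j, A i j * (x i * y j)

variable (A : Matrix (Fin n) (Fin n) R)

theorem bf_add_left (x y z : Fin n → R) : bf A (x + y) z = bf A x z + bf A y z := by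
  unfold bf
  rw [← Finset.sum_add_distrib]
  refine Finset.sum_congr rfl fun i _ => ?_
  rw [← Finset.sum_add_distrib]
  refine Finset.sum_congr rfl fun j _ => ?_
  rw [Pi.add_apply]
  ring

theorem bf_smul_left (c : R) (x z : Fin n → R) : bf A (c • x) z = c * bf A x z := by
  unfold bf
  rw [Finset.mul_sum]
  refine Finset.sum_congr rfl fun i _ => ?_
  rw [Finset.mul_sum]
  refine Finset.sum_congr rfl fun j _ => ?_
  rw [Pi.smul_apply, smul_eq_mul]
  ring

theorem bf_comm (hA : A.IsSymm) (x y : Fin n → R) : bf A x y = bf A y x := by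
  unfold bf
  rw [Finset.sum_comm]
  refine Finset.sum_congr rfl fun i _ => Finset.sum_congr rfl fun j _ => ?_
  rw [hA.apply]
  ring

theorem bf_add_right (hA : A.IsSymm) (x y z : Fin n → R) :
    bf A x (y + z) = bf A x y + bf A x z := by
  rw [bf_comm A hA, bf_add_left, bf_comm A hA y, bf_comm A hA z]

theorem bf_smul_right (hA : A.IsSymm) (c : R) (x z : Fin n → R) :
    bf A x (c • z) = c * bf A x z := by
  rw [bf_comm A hA, bf_smul_left, bf_comm A hA z]

theorem bf_map {T : Type} [CommRing T] (f : R →+* T) (x y : Fin n → R) :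
    f (bf A x y) = bf (A.map f) (fun i => f (x i)) (fun i => f (y i)) := by
  unfold bf
  rw [map_sum]
  refine Finset.sum_congr rfl fun i _ => ?_
  rw [map_sum]
  refine Finset.sum_congr rfl fun j _ => ?_
  rw [map_mul, map_mul, Matrix.map_apply]

end bf

section poly

variable {m n : ℕ} {K : Type} [Field K]

/-- `P` has total degree less than `k` -/
def Sm (P : MvPolynomial (Fin m) K) (k : ℕ) : Prop := P ≠ 0 → P.totalDegree < k

theorem Sm.zero (k : ℕ) : Sm (0 : MvPolynomial (Fin m) K) k := fun h => absurd rfl h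

theorem Sm.add {P Q : MvPolynomial (Fin m) K} {k : ℕ} (hP : Sm P k) (hQ : Sm Q k) :
    Sm (P + Q) k := by
  intro h
  by_cases h1 : P = 0
  · subst h1
    rw [zero_add] at h ⊢
    exact hQ h
  by_cases h2 : Q = 0
  · subst h2
    rw [add_zero] at h ⊢
    exact hP h
  exact (totalDegree_add P Q).trans_lt (max_lt (hP h1) (hQ h2))

theorem Sm.mul {P Q : MvPolynomial (Fin m) K} {a k : ℕ} (hP : P.totalDegree ≤ a) (hQ : Sm Q k) :
    Sm (P * Q) (a + k) := by
  intro h
  have h2 : Q ≠ 0 := right_ne_zero_of_mul h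
  have := totalDegree_mul P Q
  have := hQ h2
  omega

theorem Sm.coeff {P : MvPolynomial (Fin m) K} {d : Fin m →₀ ℕ} (hP : Sm P d.degree) :
    P.coeff d = 0 := by
  by_cases h : P = 0
  · rw [h, coeff_zero]
  · refine coeff_eq_zero_of_totalDegree_lt ?_
    have := hP h
    rwa [Finsupp.degree_apply] at this

/-- leading vectors -/
theorem lead (X : Fin n → MvPolynomial (Fin m) K) (hX : X ≠ 0) :
    ∃ μ : Fin m →₀ ℕ, (∀ i, (X i).totalDegree ≤ μ.degree) ∧
      (∀ i, degLex.degree (X i) ≼[degLex] μ) ∧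
      ∃ i, X i ≠ 0 ∧ (X i).coeff μ ≠ 0 ∧ (X i).totalDegree = μ.degree := by
  classical
  obtain ⟨i₀, hi₀⟩ := Function.ne_iff.mp hX
  obtain ⟨j, hj, hmax⟩ := Finset.exists_max_image (Finset.univ.filter fun i => X i ≠ 0)
    (fun i => degLex.toSyn (degLex.degree (X i))) ⟨i₀, by simpa using hi₀⟩
  have hj0 : X j ≠ 0 := (Finset.mem_filter.mp hj).2
  have hle : ∀ i, degLex.degree (X i) ≼[degLex] degLex.degree (X j) := by
    intro i
    by_cases hi : X i = 0
    · rw [hi, degree_zero]
      simp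
    · exact hmax i (by simpa using hi)
  refine ⟨degLex.degree (X j), fun i => ?_, hle, j, hj0, ?_, ?_⟩
  · rw [degree_degLexDegree]
    exact degLex_totalDegree_monotone (hle i)
  · exact degLex.coeff_degree_ne_zero_iff.mpr hj0
  · rw [degree_degLexDegree]

theorem bf_coeff (A : Matrix (Fin n) (Fin n) K) (X Y : Fin n → MvPolynomial (Fin m) K)
    (μ ν : Fin m →₀ ℕ) (hX : ∀ i, degLex.degree (X i) ≼[degLex] μ)
    (hY : ∀ i, degLex.degree (Y i) ≼[degLex] ν) :
    (bf (A.map C) X Y).coeff (μ + ν) = bf A (fun i => (X i).coeff μ) (fun i => (Y i).coeff ν) := by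
  unfold bf
  rw [coeff_sum]
  refine Finset.sum_congr rfl fun i _ => ?_
  rw [coeff_sum]
  refine Finset.sum_congr rfl fun j _ => ?_
  rw [Matrix.map_apply, coeff_C_mul, degLex.coeff_mul_of_add_of_degree_le (hX i) (hY j)]

/-- forms of Witt index at most one over `K`, residually -/
theorem witt_poly (A : Matrix (Fin n) (Fin n) K) (hA : A.IsSymm)
    (hW : ∀ x y : Fin n → K, bf A x x = 0 → bf A y y = 0 → bf A x y = 0 →
      ∃ a b : K, (a ≠ 0 ∨ b ≠ 0) ∧ a • x + b • y = 0)
    (X Y : Fin n → MvPolynomial (Fin m) K) (M N : ℕ)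
    (hXM : ∀ i, (X i).totalDegree ≤ M) (hYN : ∀ i, (Y i).totalDegree ≤ N)
    (hXM' : ∃ i, X i ≠ 0 ∧ (X i).totalDegree = M)
    (h1 : Sm (bf (A.map C) X X) (M + M)) (h2 : Sm (bf (A.map C) Y Y) (N + N))
    (h3 : Sm (bf (A.map C) X Y) (M + N)) :
    ∃ a c : MvPolynomial (Fin m) K, ∃ k : ℕ, a.totalDegree + M ≤ k ∧
      c ≠ 0 ∧ c.totalDegree + N = k ∧ ∀ i, Sm (a * X i + c * Y i) k := by
  have hAC : (A.map (C : K →+* MvPolynomial (Fin m) K)).IsSymm := by
    ext1 i j
    rw [Matrix.transpose_apply, Matrix.map_apply, Matrix.map_apply, hA.apply]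
  obtain ⟨i₀, hi₀, hi₀M⟩ := hXM'
  have hX0 : X ≠ 0 := fun h => hi₀ (by rw [h]; rfl)
  obtain ⟨μ, hμ1, hμ2, i, hi0, hic, hid⟩ := lead X hX0
  have hμM : μ.degree = M := le_antisymm (hid ▸ hXM i) (hi₀M ▸ hμ1 i₀)
  have hiM : (X i).totalDegree = M := hid.trans hμM
  refine ⟨-(Y i), X i, M + N, ?_, hi0, by rw [hiM], ?_⟩
  · rw [totalDegree_neg]
    have := hYN i
    omega
  by_contra hcon
  push Not at hcon
  obtain ⟨j, hj⟩ := hcon
  obtain ⟨Z, hZ⟩ : ∃ Z : Fin n → MvPolynomial (Fin m) K, Z = (-(Y i)) • X + (X i) • Y := ⟨_, rfl⟩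
  have hZj : ∀ j, Z j = -(Y i) * X j + X i * Y j := fun j => by rw [hZ]; rfl
  have hZle : ∀ j, (Z j).totalDegree ≤ M + N := by
    intro j
    rw [hZj]
    refine (totalDegree_add _ _).trans (max_le ?_ ?_)
    · refine (totalDegree_mul _ _).trans ?_
      rw [totalDegree_neg]
      have := hYN i
      have := hXM j
      omega
    · refine (totalDegree_mul _ _).trans ?_
      have := hYN j
      have := hXM i
      omega
  rw [← hZj] at hj
  unfold Sm at hj
  push Not at hj
  obtain ⟨hj0, hjd⟩ := hj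
  have hZ0 : Z ≠ 0 := fun h => hj0 (by rw [h]; rfl)
  obtain ⟨ν, hν1, hν2, l, hl0, hlc, hld⟩ := lead Z hZ0
  have hνM : ν.degree = M + N := le_antisymm (hld ▸ hZle l) (hjd.trans (hν1 j))
  -- the values of the form
  have e1 : bf (A.map C) Z Z = (Y i * Y i) * bf (A.map C) X X +
      ((-2 * (Y i * X i)) * bf (A.map C) X Y + (X i * X i) * bf (A.map C) Y Y) := by
    rw [hZ, bf_add_left, bf_add_right _ hAC, bf_add_right _ hAC]
    simp only [bf_smul_left, bf_smul_right _ hAC]
    rw [bf_comm _ hAC Y X]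
    ring
  have e2 : bf (A.map C) X Z = (-(Y i)) * bf (A.map C) X X + X i * bf (A.map C) X Y := by
    rw [hZ, bf_add_right _ hAC, bf_smul_right _ hAC, bf_smul_right _ hAC]
  have s1 : Sm (bf (A.map C) Z Z) (ν + ν).degree := by
    rw [e1, map_add, hνM]
    refine Sm.add ?_ (Sm.add ?_ ?_)
    · have : M + N + (M + N) = (N + N) + (M + M) := by ring
      rw [this]
      refine Sm.mul ((totalDegree_mul _ _).trans ?_) h1
      have := hYN i
      omega
    · have : M + N + (M + N) = (M + N) + (M + N) := by ring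
      rw [this]
      refine Sm.mul ((totalDegree_mul _ _).trans ?_) h3
      have h5 : (-2 : MvPolynomial (Fin m) K) = C (-2) := by rw [map_neg, map_ofNat]
      rw [h5, totalDegree_C, zero_add]
      refine (totalDegree_mul _ _).trans ?_
      have := hYN i
      omega
    · have : M + N + (M + N) = (M + M) + (N + N) := by ring
      rw [this]
      refine Sm.mul ((totalDegree_mul _ _).trans ?_) h2
      omega
  have s2 : Sm (bf (A.map C) X Z) (μ + ν).degree := by
    rw [e2, map_add, hνM, hμM]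
    refine Sm.add ?_ ?_
    · have : M + (M + N) = N + (M + M) := by ring
      rw [this]
      refine Sm.mul ?_ h1
      rw [totalDegree_neg]
      exact hYN i
    · exact Sm.mul hiM.le h3
  have s3 : Sm (bf (A.map C) X X) (μ + μ).degree := by
    rw [map_add, hμM]
    exact h1
  have c1 := s1.coeff
  have c2 := s2.coeff
  have c3 := s3.coeff
  rw [bf_coeff A Z Z ν ν hν2 hν2] at c1
  rw [bf_coeff A X Z μ ν hμ2 hν2] at c2
  rw [bf_coeff A X X μ μ hμ2 hμ2] at c3
  obtain ⟨a, b, hab, h⟩ := hW _ _ c3 c1 c2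
  have hZi : (Z i).coeff ν = 0 := by
    rw [hZj]
    have : -(Y i) * X i + X i * Y i = 0 := by ring
    rw [this, coeff_zero]
  have h5 := congrFun h i
  rw [Pi.add_apply, Pi.smul_apply, Pi.smul_apply, hZi, smul_zero, add_zero, smul_eq_mul,
    Pi.zero_apply] at h5
  have ha : a = 0 := (mul_eq_zero.mp h5).resolve_right hic
  have hb : b ≠ 0 := by
    rcases hab with h | h
    · exact absurd ha h
    · exact h
  have h6 := congrFun h l
  rw [ha, zero_smul, zero_add, Pi.smul_apply, smul_eq_mul, Pi.zero_apply] at h6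
  exact hlc ((mul_eq_zero.mp h6).resolve_left hb)

/-- anisotropic forms -/
theorem aniso_poly (A : Matrix (Fin n) (Fin n) K)
    (hW : ∀ x : Fin n → K, bf A x x = 0 → x = 0)
    (X : Fin n → MvPolynomial (Fin m) K) (i : Fin n) (hi : X i ≠ 0) :
    bf (A.map C) X X ≠ 0 ∧ 2 * (X i).totalDegree ≤ (bf (A.map C) X X).totalDegree := by
  have hX0 : X ≠ 0 := fun h => hi (by rw [h]; rfl)
  obtain ⟨μ, hμ1, hμ2, l, hl0, hlc, hld⟩ := lead X hX0
  have h1 : ¬ Sm (bf (A.map C) X X) (μ + μ).degree := by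
    intro h
    have h2 := h.coeff
    rw [bf_coeff A X X μ μ hμ2 hμ2] at h2
    exact hlc (congrFun (hW _ h2) l)
  unfold Sm at h1
  push Not at h1
  refine ⟨h1.1, ?_⟩
  have h2 := h1.2
  rw [map_add] at h2
  have := hμ1 i
  omega

end poly

end Pool.Agent.W2helper34.OT
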