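import Pool.Agent.W2helper34.OT.Act
import Pool.Agent.W2helper34.OT.Poly

/-!
# Orthogonal groups over polynomial rings
-/

set_option autoImplicit false
set_option linter.unusedSectionVars false

namespace Pool.Agent.W2helper34.OT

open Pool.Agent.W2helper34.GT (Dg DegO DF exists_hom exists_Dg DF_mul DF_am am_ne degMv)
open Pool.Agent.Y110.FJ (ClosedE)
open MvPolynomial

section

variable {m n : ℕ} {K F : Type} [Field K] [Field F] [Algebra (MvPolynomial (Fin m) K) F]
  [IsFractionRing (MvPolynomial (Fin m) K) F]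

/-- the polynomial ring -/
local instance : Algebra.FiniteType K (MvPolynomial (Fin m) K) := inferInstance

/-- the embedding -/
abbrev am (m : ℕ) (K F : Type) [Field K] [Field F] [Algebra (MvPolynomial (Fin m) K) F] :
    MvPolynomial (Fin m) K →+* F := algebraMap _ F

/-- common denominators -/
theorem clear (v : Fin n → F) : ∃ (s : MvPolynomial (Fin m) K) (X : Fin n → MvPolynomial (Fin m) K),
    s ≠ 0 ∧ ∀ i, am m K F (X i) = am m K F s * v i := by
  obtain ⟨b, hb⟩ := IsLocalization.exist_integer_multiples_of_finite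
    (nonZeroDivisors (MvPolynomial (Fin m) K)) v
  choose X hX using hb
  refine ⟨b, X, nonZeroDivisors.ne_zero b.2, fun i => ?_⟩
  rw [hX, Algebra.smul_def]

variable {δ : Dg F} {e : ℤ} (he : 0 < e) (hδ : ∀ x : F, x ≠ 0 → DF (degMv K (Fin m)) x = e * δ.D x)

include he hδ

theorem deg_frac {P s : MvPolynomial (Fin m) K} {x : F} (hs : s ≠ 0) (h : am m K F P = am m K F s * x)
    (hx : x ≠ 0) : P ≠ 0 ∧ (P.totalDegree : ℤ) = s.totalDegree + e * δ.D x := by
  have hP : P ≠ 0 := by
    rintro rfl
    rw [map_zero] at h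
    exact mul_ne_zero (am_ne hs) hx h.symm
  refine ⟨hP, ?_⟩
  have h1 := DF_am (F := F) (degMv K (Fin m)) hP
  rw [h, DF_mul _ (am_ne hs) hx, DF_am _ hs, hδ _ hx] at h1
  exact h1.symm

theorem le_of_M {P s : MvPolynomial (Fin m) K} {x : F} (hs : s ≠ 0)
    (h : am m K F P = am m K F s * x) (hM : M δ x 0) : P.totalDegree ≤ s.totalDegree := by
  by_cases hP : P = 0
  · rw [hP, totalDegree_zero]
    exact Nat.zero_le _
  have hx : x ≠ 0 := by
    rintro rfl
    rw [mul_zero] at h
    exact hP ((IsFractionRing.injective (MvPolynomial (Fin m) K) F) (h.trans (map_zero _).symm))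
  obtain ⟨_, h1⟩ := deg_frac he hδ hs h hx
  have h2 := hM hx
  have h3 : e * δ.D x ≤ e * 0 := mul_le_mul_of_nonneg_left h2 he.le
  omega

theorem M_iff_Sm {P s : MvPolynomial (Fin m) K} {x : F} (hs : s ≠ 0)
    (h : am m K F P = am m K F s * x) : M δ x (-1) ↔ Sm P s.totalDegree := by
  constructor
  · intro hM hP
    have hx : x ≠ 0 := by
      rintro rfl
      rw [mul_zero] at h
      exact hP ((IsFractionRing.injective (MvPolynomial (Fin m) K) F) (h.trans (map_zero _).symm))
    obtain ⟨_, h1⟩ := deg_frac he hδ hs h hx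
    have h2 := hM hx
    have h3 : e * δ.D x ≤ e * (-1) := mul_le_mul_of_nonneg_left h2 he.le
    omega
  · intro hP hx
    obtain ⟨hP0, h1⟩ := deg_frac he hδ hs h hx
    have h2 := hP hP0
    by_contra hcon
    have h3 : e * 0 ≤ e * δ.D x := mul_le_mul_of_nonneg_left (by omega) he.le
    omega

theorem M_const (a : K) : M δ (am m K F (C a)) 0 := by
  intro hx
  obtain ⟨_, h1⟩ := deg_frac he hδ (P := C a) (s := 1) one_ne_zero (by rw [map_one, one_mul]) hx
  rw [totalDegree_C, totalDegree_one] at h1
  have h2 : e * δ.D (am m K F (C a)) = 0 := by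
    push_cast at h1
    omega
  rcases mul_eq_zero.mp h2 with h3 | h3
  · omega
  · exact h3.le

/-- the form over `F` -/
noncomputable def AF (m : ℕ) {n : ℕ} {K : Type} (F : Type) [Field K] [Field F]
    [Algebra (MvPolynomial (Fin m) K) F] (A : Matrix (Fin n) (Fin n) K) :
    Matrix (Fin n) (Fin n) F := A.map fun a => am m K F (C a)

omit he hδ in
omit [IsFractionRing (MvPolynomial (Fin m) K) F] in
theorem AF_symm {A : Matrix (Fin n) (Fin n) K} (hA : A.IsSymm) : (AF m F A).IsSymm := by
  ext1 i j
  rw [Matrix.transpose_apply]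
  unfold AF
  rw [Matrix.map_apply, Matrix.map_apply, hA.apply]

omit he hδ in
omit [IsFractionRing (MvPolynomial (Fin m) K) F] in
theorem bf_AF (A : Matrix (Fin n) (Fin n) K) (X Y : Fin n → MvPolynomial (Fin m) K)
    (v w : Fin n → F) (s t : MvPolynomial (Fin m) K) (hX : ∀ i, am m K F (X i) = am m K F s * v i)
    (hY : ∀ i, am m K F (Y i) = am m K F t * w i) :
    am m K F (bf (A.map C) X Y) = am m K F (s * t) * bf (AF m F A) v w := by
  rw [bf_map]
  have e1 : (fun i => am m K F (X i)) = am m K F s • v := funext hX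
  have e2 : (fun i => am m K F (Y i)) = am m K F t • w := funext hY
  have e3 : (A.map (C : K →+* MvPolynomial (Fin m) K)).map (am m K F) = AF m F A := by
    ext1 i j
    rfl
  rw [e1, e2, e3]
  unfold bf
  rw [Finset.mul_sum]
  refine Finset.sum_congr rfl fun i _ => ?_
  rw [Finset.mul_sum]
  refine Finset.sum_congr rfl fun j _ => ?_
  rw [Pi.smul_apply, Pi.smul_apply, smul_eq_mul, smul_eq_mul, map_mul]
  ring

/-- the quadratic form over `F` -/
noncomputable def qF (m : ℕ) {n : ℕ} {K : Type} (F : Type) [Field K] [Field F]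
    [Algebra (MvPolynomial (Fin m) K) F] (A : Matrix (Fin n) (Fin n) K) :
    QuadraticForm F (Fin n → F) :=
  LinearMap.BilinMap.toQuadraticMap (Matrix.toLinearMap₂' F (AF m F A))

omit he hδ in
omit [IsFractionRing (MvPolynomial (Fin m) K) F] in
theorem qF_apply (A : Matrix (Fin n) (Fin n) K) (v : Fin n → F) :
    qF m F A v = bf (AF m F A) v v := by
  unfold qF bf
  rw [LinearMap.BilinMap.toQuadraticMap_apply, Matrix.toLinearMap₂'_apply]
  refine Finset.sum_congr rfl fun i _ => Finset.sum_congr rfl fun j _ => ?_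
  rw [smul_eq_mul, smul_eq_mul]
  ring

omit he hδ in
omit [IsFractionRing (MvPolynomial (Fin m) K) F] in
theorem polar_qF {A : Matrix (Fin n) (Fin n) K} (hA : A.IsSymm) (v w : Fin n → F) :
    QuadraticMap.polar (qF m F A) v w = 2 * bf (AF m F A) v w := by
  unfold QuadraticMap.polar
  rw [qF_apply, qF_apply, qF_apply, bf_add_left, bf_add_right _ (AF_symm hA),
    bf_add_right _ (AF_symm hA), bf_comm _ (AF_symm hA) w v]
  ring

theorem M_bf (A : Matrix (Fin n) (Fin n) K) {v w : Fin n → F} (hv : Nb δ v 0) (hw : Nb δ w 0) :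
    M δ (bf (AF m F A) v w) 0 := by
  unfold bf
  refine M.sum _ _ fun i _ => M.sum _ _ fun j _ => ?_
  have := (M_const he hδ (A i j)).mul ((hv i).mul (hw j))
  rw [add_zero, add_zero] at this
  exact this

theorem M_two (h2 : (2 : K) ≠ 0) {x : F} {k : ℤ} (h : M δ (2 * x) k) : M δ x k := by
  have h3 := (M_const he hδ (2⁻¹ : K)).mul h
  have e1 : am m K F (C 2⁻¹) * (2 * x) = x := by
    have : (2 : F) = am m K F (C 2) := by rw [map_ofNat, map_ofNat]
    rw [this, ← mul_assoc, ← map_mul, ← map_mul, inv_mul_cancel₀ h2, map_one, map_one, one_mul]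
  rw [e1, zero_add] at h3
  exact h3

/-- the quadratic space -/
noncomputable def QSA (h2 : (2 : K) ≠ 0) (A : Matrix (Fin n) (Fin n) K) (hA : A.IsSymm)
    (hdet : A.det ≠ 0)
    (hW : ∀ x y : Fin n → K, bf A x x = 0 → bf A y y = 0 → bf A x y = 0 →
      ∃ a b : K, (a ≠ 0 ∨ b ≠ 0) ∧ a • x + b • y = 0)
    (x : Fin n → K) (hx : x ≠ 0) (hxx : bf A x x = 0) : QS δ (Fin n) where
  q := qF m F A
  int v hv := by
    rw [qF_apply]
    exact M_bf he hδ A hv hv
  dual v hv := by
    have h3 : ∀ j, M δ (∑ i, am m K F (C (A i j)) * v i) 0 := by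
      intro j
      have h4 := hv (Pi.single j 1) (by
        intro i
        by_cases hij : i = j
        · subst hij
          rw [Pi.single_eq_same]
          exact M.one
        · rw [Pi.single_eq_of_ne hij]
          exact M.zero 0)
      rw [polar_qF hA] at h4
      have h5 := M_two he hδ h2 h4
      have e1 : bf (AF m F A) v (Pi.single j 1) = ∑ i, am m K F (C (A i j)) * v i := by
        unfold bf
        refine Finset.sum_congr rfl fun i _ => ?_
        rw [Finset.sum_eq_single j]
        · rw [Pi.single_eq_same, mul_one]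
          rfl
        · intro k _ hk
          rw [Pi.single_eq_of_ne hk, mul_zero, mul_zero]
        · intro h
          exact absurd (Finset.mem_univ j) h
      rwa [e1] at h5
    intro k
    obtain ⟨B, hB⟩ : ∃ B : Matrix (Fin n) (Fin n) K, A * B = 1 :=
      ⟨A⁻¹, Matrix.mul_nonsing_inv _ (isUnit_iff_ne_zero.mpr hdet)⟩
    have h4 : v k = ∑ j, am m K F (C (B j k)) * ∑ i, am m K F (C (A i j)) * v i := by
      have h5 : ∀ i, ∑ j, am m K F (C (B j k)) * am m K F (C (A i j)) =
          if i = k then 1 else 0 := by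
        intro i
        have h6 : (A * B) i k = (1 : Matrix (Fin n) (Fin n) K) i k := by rw [hB]
        rw [Matrix.mul_apply, Matrix.one_apply] at h6
        have h7 : am m K F (C (∑ j, A i j * B j k)) = am m K F (C (if i = k then (1 : K) else 0)) := by
          rw [h6]
        rw [map_sum, map_sum] at h7
        have h8 : am m K F (C (if i = k then (1 : K) else 0)) = if i = k then 1 else 0 := by
          split_ifs
          · rw [map_one, map_one]
          · rw [map_zero, map_zero]
        rw [← h8, ← h7]
        refine Finset.sum_congr rfl fun j _ => ?_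
        rw [map_mul, map_mul, mul_comm]
      calc v k = ∑ i, (if i = k then 1 else 0) * v i := by
            rw [Finset.sum_eq_single k]
            · rw [if_pos rfl, one_mul]
            · intro i _ hi
              rw [if_neg hi, zero_mul]
            · intro h
              exact absurd (Finset.mem_univ k) h
        _ = ∑ i, (∑ j, am m K F (C (B j k)) * am m K F (C (A i j))) * v i :=
            Finset.sum_congr rfl fun i _ => by rw [h5]
        _ = ∑ i, ∑ j, am m K F (C (B j k)) * (am m K F (C (A i j)) * v i) := by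
            refine Finset.sum_congr rfl fun i _ => ?_
            rw [Finset.sum_mul]
            exact Finset.sum_congr rfl fun j _ => by ring
        _ = ∑ j, ∑ i, am m K F (C (B j k)) * (am m K F (C (A i j)) * v i) := Finset.sum_comm
        _ = _ := Finset.sum_congr rfl fun j _ => by rw [Finset.mul_sum]
    rw [h4]
    refine M.sum _ _ fun j _ => ?_
    have := (M_const he hδ (B j k)).mul (h3 j)
    rwa [add_zero] at this
  witt v w hv hw hqv hqw hb := by
    by_cases hv1 : Nb δ v (-1)
    · refine ⟨1, 0, M.one, M.zero 0, Or.inl ?_, ?_⟩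
      · intro h
        have h3 := h one_ne_zero
        rw [δ.one] at h3
        omega
      · rw [one_smul, zero_smul, add_zero]
        exact hv1
    obtain ⟨s, X, hs, hX⟩ := clear (m := m) (K := K) v
    obtain ⟨t, Y, ht, hY⟩ := clear (m := m) (K := K) w
    have hXi : ∀ i, (X i).totalDegree ≤ s.totalDegree := fun i => le_of_M he hδ hs (hX i) (hv i)
    have hYi : ∀ i, (Y i).totalDegree ≤ t.totalDegree := fun i => le_of_M he hδ ht (hY i) (hw i)
    have hXe : ∃ i, X i ≠ 0 ∧ (X i).totalDegree = s.totalDegree := by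
      unfold Nb at hv1
      push Not at hv1
      obtain ⟨i, hi⟩ := hv1
      rw [M_iff_Sm he hδ hs (hX i)] at hi
      unfold Sm at hi
      push Not at hi
      exact ⟨i, hi.1, le_antisymm (hXi i) hi.2⟩
    have d1 : (s * s).totalDegree = s.totalDegree + s.totalDegree := totalDegree_mul_of_isDomain hs hs
    have d2 : (t * t).totalDegree = t.totalDegree + t.totalDegree := totalDegree_mul_of_isDomain ht ht
    have d3 : (s * t).totalDegree = s.totalDegree + t.totalDegree := totalDegree_mul_of_isDomain hs ht
    have s1 : Sm (bf (A.map C) X X) (s.totalDegree + s.totalDegree) := by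
      rw [← d1, ← M_iff_Sm he hδ (mul_ne_zero hs hs) (bf_AF A X X v v s s hX hX)]
      rw [qF_apply] at hqv
      exact hqv
    have s2 : Sm (bf (A.map C) Y Y) (t.totalDegree + t.totalDegree) := by
      rw [← d2, ← M_iff_Sm he hδ (mul_ne_zero ht ht) (bf_AF A Y Y w w t t hY hY)]
      rw [qF_apply] at hqw
      exact hqw
    have s3 : Sm (bf (A.map C) X Y) (s.totalDegree + t.totalDegree) := by
      rw [← d3, ← M_iff_Sm he hδ (mul_ne_zero hs ht) (bf_AF A X Y v w s t hX hY)]
      rw [polar_qF hA] at hb
      exact M_two he hδ h2 hb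
    obtain ⟨a, c, k, ha, hc0, hc, hac⟩ := witt_poly A hA hW X Y _ _ hXi hYi hXe s1 s2 s3
    -- the denominator
    have hct : c * t ≠ 0 := mul_ne_zero hc0 ht
    have hctk : (c * t).totalDegree = k := by rw [totalDegree_mul_of_isDomain hc0 ht, hc]
    have hu : am m K F (c * t) ≠ 0 := am_ne hct
    refine ⟨am m K F (a * s) / am m K F (c * t), 1, ?_, M.one, Or.inr ?_, ?_⟩
    · intro hx0
      have e1 : am m K F (a * s) = am m K F (c * t) * (am m K F (a * s) / am m K F (c * t)) := by
        field_simp
      obtain ⟨h3, h4⟩ := deg_frac he hδ hct e1 hx0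
      have h5 := totalDegree_mul a s
      have h6 : e * δ.D (am m K F (a * s) / am m K F (c * t)) ≤ e * 0 := by
        rw [hctk] at h4
        omega
      exact le_of_mul_le_mul_left h6 he
    · intro h
      have h3 := h one_ne_zero
      rw [δ.one] at h3
      omega
    · intro i
      have e1 : am m K F (a * X i + c * Y i) = am m K F (c * t) *
          ((am m K F (a * s) / am m K F (c * t)) • v + (1 : F) • w) i := by
        rw [map_add, map_mul, map_mul, hX, hY, Pi.add_apply, Pi.smul_apply, Pi.smul_apply,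
          smul_eq_mul, smul_eq_mul, one_mul, mul_add]
        rw [map_mul _ a s, map_mul _ c t] at *
        have hc' : am m K F c ≠ 0 := am_ne hc0
        have ht' : am m K F t ≠ 0 := am_ne ht
        field_simp
      rw [M_iff_Sm he hδ hct e1, hctk]
      exact hac i
  e := fun i => am m K F (C (x i))
  e_ne := by
    obtain ⟨i, hi⟩ := Function.ne_iff.mp hx
    intro h
    have h3 : am m K F (C (x i)) = 0 := congrFun h i
    have h4 : C (x i) ≠ (0 : MvPolynomial (Fin m) K) := by
      rw [Ne, MvPolynomial.C_eq_zero]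
      exact hi
    exact am_ne h4 h3
  e_iso := by
    rw [qF_apply]
    have h3 := bf_map A ((am m K F).comp C) x x
    rw [hxx, map_zero] at h3
    exact h3.symm

end

end Pool.Agent.W2helper34.OT
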