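import Pool.Agent.W2helper34.OT.Tree
import Pool.Agent.W2helper34.GT.Fin

/-!
# Groups of isometries
-/

set_option autoImplicit false
set_option linter.unusedSectionVars false

namespace Pool.Agent.W2helper34.OT

open Pool.Agent.W2helper34.GT (Dg DegO DF exists_hom exists_Dg DF_mul DF_sub_le DF_neg)
open Pool.Agent.Y110.FJ (ClosedE)

section tree

variable {F ι : Type} [Field F] {δ : Dg F} [Finite ι] (S : QS δ ι)

namespace QS

/-- the elements of the stabilizer of a vertex are bounded -/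
theorem stab_B (v : S.VV) : ∃ k : ℤ, ∀ g : S.Iso, g • v = v → S.Bd k g := by
  induction v using QuotientGroup.induction_on with
  | H x =>
    obtain ⟨k, hk⟩ := S.exists_Bd x
    refine ⟨k + 0 + k, fun g hg => ?_⟩
    have h1 : x⁻¹ * (g * x) ∈ S.HH := by
      rw [← QuotientGroup.eq]
      exact hg.symm
    have h2 : S.Bd (k + 0 + k) (x * (x⁻¹ * (g * x)) * x⁻¹) :=
      Bd.mul S (Bd.mul S hk (S.mem_HH.mp h1)) (hk.inv S)
    have e : x * (x⁻¹ * (g * x)) * x⁻¹ = g := by group
    rwa [e] at h2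

/-- **Groups of isometries.** -/
theorem main_tree {C : ∀ (G : Type) [Group G], Prop} (hC : ClosedE C) {G : Type} [Group G]
    (ρ : G →* S.Iso)
    (h : ∀ k : ℤ, ∃ (P : Type) (_ : Group P) (f : G →* P), C P ∧
      ∀ g, S.Bd k (ρ g) → f g = 1 → g = 1) : C G := by
  let _ : MulAction G S.VV := MulAction.compHom S.VV ρ
  refine Pool.Agent.N24.TR.tree_local hC S.isTree (fun g u v h => S.TT_act (ρ g) u v h)
    fun v => ?_
  obtain ⟨k, hk⟩ := S.stab_B v
  obtain ⟨P, _, f, hP, hf⟩ := h k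
  exact ⟨P, inferInstance, f, hP, fun g hg h1 => hf g (hk _ hg) h1⟩

end QS

end tree

section lattice

variable {K O F : Type} [Field K] [CommRing O] [IsDomain O] [Algebra K O] [Algebra.FiniteType K O]
  [Field F] [Algebra O F] [IsFractionRing O F] [Algebra K F] [IsScalarTower K O F]

/-- groups of bounded elements -/
theorem bounded_C (d : DegO K O) {C : ∀ (G : Type) [Group G], Prop} (hC : ClosedE C)
    (hK : ∀ n, C (GL (Fin n) K)) {ι : Type} [Fintype ι] (L : Submodule O (ι → F)) (hL : L.FG)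
    (hspan : Submodule.span F (L : Set (ι → F)) = ⊤) {G : Type} [Group G]
    (ρ : G →* Module.End F (ι → F)) (hinj : Function.Injective ρ)
    (hρ : ∀ g, ∀ x ∈ L, ρ g x ∈ L)
    (hb : ∀ x ∈ L, ∃ c : ℤ, ∀ g i, ρ g x i ≠ 0 → DF d (ρ g x i) ≤ c) : C G := by
  classical
  obtain ⟨T, hT⟩ := hL
  have hTL : ∀ x ∈ T, x ∈ L := fun x hx => hT ▸ Submodule.subset_span hx
  choose! c hc using hb
  obtain ⟨m, hm⟩ := (T.image c).exists_le
  obtain ⟨N, f, hf⟩ := exists_hom d L T hT ρ hρ m
  refine hC.base.of_injective _ _ f ?_ (hK N)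
  rw [injective_iff_map_eq_one]
  intro g hg
  have h1 := hf g (fun x hx i hne => (hc x (hTL x hx) g i hne).trans
    (hm _ (Finset.mem_image.mpr ⟨x, hx, rfl⟩))) hg
  apply hinj
  rw [map_one]
  apply LinearMap.ext
  intro x
  have hx : x ∈ Submodule.span F (L : Set (ι → F)) := by rw [hspan]; trivial
  induction hx using Submodule.span_induction with
  | mem x hx => exact h1 x hx
  | zero => exact map_zero _
  | add x y _ _ hx hy => rw [map_add, hx, hy]; rfl
  | smul r x _ hx => rw [map_smul, hx]; rfl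

/-- **Groups of isometries which preserve a lattice.** -/
theorem lattice_C (d : DegO K O) {C : ∀ (G : Type) [Group G], Prop} (hC : ClosedE C)
    (hK : ∀ n, C (GL (Fin n) K)) {ι : Type} [Fintype ι] {δ : Dg F} {e : ℤ} (he : 0 < e)
    (hδ : ∀ x : F, x ≠ 0 → DF d x = e * δ.D x) (S : QS δ ι)
    (L : Submodule O (ι → F)) (hL : L.FG)
    (hspan : Submodule.span F (L : Set (ι → F)) = ⊤) {G : Type} [Group G]
    (ρ : G →* Module.End F (ι → F)) (hinj : Function.Injective ρ)
    (hq : ∀ g v, S.q (ρ g v) = S.q v)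
    (hρ : ∀ g, ∀ x ∈ L, ρ g x ∈ L) : C G := by
  classical
  obtain ⟨T, hT⟩ := hL
  let ρ₁ : G →* ((ι → F) ≃ₗ[F] (ι → F)) :=
    ((LinearMap.GeneralLinearGroup.generalLinearEquiv F (ι → F) : _ ≃* _) :
      LinearMap.GeneralLinearGroup F (ι → F) →* _).comp ρ.toHomUnits
  have hρ₁ : ∀ g v, ρ₁ g v = ρ g v := fun g v => rfl
  let ρ₂ : G →* S.Iso := ρ₁.codRestrict S.Iso (fun g v => by rw [hρ₁]; exact hq g v)
  have hρ₂ : ∀ g v, S.ap (ρ₂ g) v = ρ g v := fun g v => rfl
  refine S.main_tree hC ρ₂ fun k => ?_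
  -- a bound for the generators
  obtain ⟨m, hm⟩ : ∃ m : ℤ, ∀ x ∈ T, Nb δ x m := by
    obtain ⟨m, hm⟩ := (T.image (nm δ)).exists_le
    refine ⟨m, fun x hx => ?_⟩
    by_cases h0 : x = 0
    · rw [h0]
      exact Nb.zero m
    · exact (nm_le h0 m).mpr (hm _ (Finset.mem_image.mpr ⟨x, hx, rfl⟩))
  obtain ⟨N, f, hf⟩ := exists_hom d L T hT ρ hρ (e * (m + k))
  refine ⟨GL (Fin N) K, inferInstance, f, hK N, fun g hB h1 => ?_⟩
  have h2 := hf g (fun x hx i hne => by
    rw [hδ _ hne]
    refine mul_le_mul_of_nonneg_left ?_ he.le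
    have := hB x m (hm x hx)
    exact this i hne) h1
  apply hinj
  rw [map_one]
  apply LinearMap.ext
  intro x
  have hx : x ∈ Submodule.span F (L : Set (ι → F)) := by rw [hspan]; trivial
  induction hx using Submodule.span_induction with
  | mem x hx => exact h2 x hx
  | zero => exact map_zero _
  | add x y _ _ hx hy => rw [map_add, hx, hy]; rfl
  | smul r x _ hx => rw [map_smul, hx]; rfl

end lattice

end Pool.Agent.W2helper34.OT
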