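import Pool.Agent.W2helper34.OT.Norm

/-!
# Unimodular quadratic forms of residual Witt index one
-/

set_option autoImplicit false

namespace Pool.Agent.W2helper34.OT

open Pool.Agent.W2helper34.GT (Dg)

/-- a quadratic form on `F ^ ι` which is unimodular for the valuation, with residual Witt index at most
one, and with an isotropic vector -/
structure QS {F : Type} [Field F] (δ : Dg F) (ι : Type) where
  q : QuadraticForm F (ι → F)
  int : ∀ v, Nb δ v 0 → M δ (q v) 0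
  dual : ∀ v, (∀ w, Nb δ w 0 → M δ (QuadraticMap.polar q v w) 0) → Nb δ v 0
  witt : ∀ v w, Nb δ v 0 → Nb δ w 0 → M δ (q v) (-1) → M δ (q w) (-1) →
    M δ (QuadraticMap.polar q v w) (-1) →
    ∃ a c : F, M δ a 0 ∧ M δ c 0 ∧ (¬ M δ a (-1) ∨ ¬ M δ c (-1)) ∧ Nb δ (a • v + c • w) (-1)
  e : ι → F
  e_ne : e ≠ 0
  e_iso : q e = 0

variable {F ι : Type} [Field F] {δ : Dg F} (S : QS δ ι)

namespace QS

/-- the polar form -/
def b (v w : ι → F) : F := QuadraticMap.polar S.q v w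

theorem b_comm (v w : ι → F) : S.b v w = S.b w v := QuadraticMap.polar_comm _ _ _

theorem b_add_left (u v w : ι → F) : S.b (u + v) w = S.b u w + S.b v w :=
  QuadraticMap.polar_add_left _ _ _ _

theorem b_add_right (u v w : ι → F) : S.b u (v + w) = S.b u v + S.b u w :=
  QuadraticMap.polar_add_right _ _ _ _

theorem b_smul_left (c : F) (v w : ι → F) : S.b (c • v) w = c * S.b v w :=
  QuadraticMap.polar_smul_left _ _ _ _

theorem b_smul_right (c : F) (v w : ι → F) : S.b v (c • w) = c * S.b v w :=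
  QuadraticMap.polar_smul_right _ _ _ _

theorem b_sub_left (u v w : ι → F) : S.b (u - v) w = S.b u w - S.b v w :=
  QuadraticMap.polar_sub_left _ _ _ _

theorem b_self (v : ι → F) : S.b v v = 2 * S.q v := by
  have := QuadraticMap.polar_self S.q v
  rw [two_nsmul] at this
  rw [two_mul]
  exact this

theorem q_add (v w : ι → F) : S.q (v + w) = S.q v + S.q w + S.b v w := by
  show _ = _ + (S.q (v + w) - S.q v - S.q w)
  ring

theorem q_smul (c : F) (v : ι → F) : S.q (c • v) = c * c * S.q v := by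
  rw [QuadraticMap.map_smul, smul_eq_mul]

theorem int_b0 {v w : ι → F} (hv : Nb δ v 0) (hw : Nb δ w 0) : M δ (S.b v w) 0 :=
  ((S.int _ (hv.add hw)).sub (S.int _ hv)).sub (S.int _ hw)

/-- the uniformizer (inverted) -/
noncomputable def p (_ : QS δ ι) : F := δ.pi.choose

theorem p_ne : S.p ≠ 0 := δ.pi.choose_spec.1

theorem D_p : δ.D S.p = 1 := δ.pi.choose_spec.2

/-- powers of the uniformizer -/
noncomputable def pw (n : ℤ) : F := S.p ^ n

theorem pw_ne (n : ℤ) : S.pw n ≠ 0 := zpow_ne_zero n S.p_ne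

theorem D_pw (n : ℤ) : δ.D (S.pw n) = n := D_zpow S.p_ne S.D_p n

theorem M_pw (n : ℤ) : M δ (S.pw n) n := fun _ => (S.D_pw n).le

theorem pw_add (m n : ℤ) : S.pw (m + n) = S.pw m * S.pw n := zpow_add₀ S.p_ne m n

theorem pw_zero : S.pw 0 = 1 := zpow_zero _

theorem pw_neg_mul (n : ℤ) : S.pw (-n) * S.pw n = 1 := by
  rw [← pw_add, neg_add_cancel, pw_zero]

theorem pw_mul_neg (n : ℤ) : S.pw n * S.pw (-n) = 1 := by
  rw [← pw_add, add_neg_cancel, pw_zero]

theorem Nb_pw {v : ι → F} {n : ℤ} (k : ℤ) (h : Nb δ v n) : Nb δ (S.pw k • v) (k + n) :=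
  Nb.smul (S.M_pw k) h

theorem Nb_pw_iff {v : ι → F} {n : ℤ} (k : ℤ) : Nb δ (S.pw k • v) (k + n) ↔ Nb δ v n :=
  ⟨fun h => Nb.cancel (S.pw_ne k) (S.D_pw k) h, fun h => S.Nb_pw k h⟩

theorem int_q {v : ι → F} {n : ℤ} (hv : Nb δ v n) : M δ (S.q v) (2 * n) := by
  have h1 : Nb δ (S.pw (-n) • v) 0 := by
    have := S.Nb_pw (-n) hv
    rwa [neg_add_cancel] at this
  have h2 := S.int _ h1
  rw [q_smul] at h2
  refine M.cancel (c := S.pw (-n) * S.pw (-n)) (mul_ne_zero (S.pw_ne _) (S.pw_ne _))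
    (k := -n + -n) ?_ ?_
  · rw [δ.mul _ _ (S.pw_ne _) (S.pw_ne _), D_pw]
  · have : -n + -n + 2 * n = 0 := by ring
    rw [this]
    exact h2

theorem int_b {v w : ι → F} {n m : ℤ} (hv : Nb δ v n) (hw : Nb δ w m) : M δ (S.b v w) (n + m) := by
  have h1 : Nb δ (S.pw (-n) • v) 0 := by
    have := S.Nb_pw (-n) hv
    rwa [neg_add_cancel] at this
  have h2 : Nb δ (S.pw (-m) • w) 0 := by
    have := S.Nb_pw (-m) hw
    rwa [neg_add_cancel] at this
  have h3 := S.int_b0 h1 h2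
  rw [b_smul_left, b_smul_right, ← mul_assoc] at h3
  refine M.cancel (c := S.pw (-n) * S.pw (-m)) (mul_ne_zero (S.pw_ne _) (S.pw_ne _))
    (k := -n + -m) ?_ ?_
  · rw [δ.mul _ _ (S.pw_ne _) (S.pw_ne _), D_pw, D_pw]
  · have : -n + -m + (n + m) = 0 := by ring
    rw [this]
    exact h3

theorem dual_n {v : ι → F} {n : ℤ} (h : ∀ w, Nb δ w 0 → M δ (S.b v w) n) : Nb δ v n := by
  have h1 : Nb δ (S.pw (-n) • v) 0 := by
    refine S.dual _ fun w hw => ?_
    show M δ (S.b (S.pw (-n) • v) w) 0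
    rw [b_smul_left]
    have := (S.M_pw (-n)).mul (h w hw)
    rwa [neg_add_cancel] at this
  have h2 : -n + n = 0 := neg_add_cancel n
  rw [← h2] at h1
  exact (S.Nb_pw_iff (-n)).mp h1

/-- the residue of a vector which is orthogonal to an isotropic vector -/
theorem residue {v w : ι → F} (hw : Nb δ w 0) (hw1 : ¬ Nb δ w (-1)) (hv : Nb δ v 0)
    (hqw : M δ (S.q w) (-1)) (hqv : M δ (S.q v) (-1)) (hb : M δ (S.b v w) (-1)) :
    ∃ c : F, M δ c 0 ∧ Nb δ (v - c • w) (-1) := by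
  obtain ⟨a, c, ha, hc, hac, h⟩ := S.witt v w hv hw hqv hqw hb
  have ha1 : ¬ M δ a (-1) := by
    intro ha1
    have hc1 : ¬ M δ c (-1) := by
      rcases hac with h | h
      · exact absurd ha1 h
      · exact h
    obtain ⟨hc0, hcD⟩ := M.unit hc hc1
    apply hw1
    have h1 : Nb δ (c • w) (-1) := by
      have h2 : Nb δ (a • v) (-1) := by
        have := Nb.smul ha1 hv
        rwa [add_zero] at this
      have h3 := h.sub h2
      rwa [add_sub_cancel_left] at h3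
    have h4 : (-1 : ℤ) = 0 + -1 := by ring
    rw [h4] at h1
    exact Nb.cancel hc0 hcD h1
  obtain ⟨ha0, haD⟩ := M.unit ha ha1
  have hai := M.inv_unit ha0 haD
  refine ⟨-(a⁻¹ * c), ?_, ?_⟩
  · have := (hai.mul hc).neg
    rwa [add_zero] at this
  · have h1 := Nb.smul hai h
    have h2 : a⁻¹ • (a • v + c • w) = v - -(a⁻¹ * c) • w := by
      rw [smul_add, smul_smul, smul_smul, inv_mul_cancel₀ ha0, one_smul, neg_smul, sub_neg_eq_add]
    rw [h2, zero_add] at h1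
    exact h1

/-! ### isometries -/

/-- the group of isometries -/
def Iso : Subgroup ((ι → F) ≃ₗ[F] (ι → F)) where
  carrier := {g | ∀ v, S.q (g v) = S.q v}
  one_mem' := fun _ => rfl
  mul_mem' := by
    intro g h hg hh v
    show S.q (g (h v)) = S.q v
    rw [hg, hh]
  inv_mem' := by
    intro g hg v
    have h1 := hg (g⁻¹ v)
    have h2 : g (g⁻¹ v) = v := g.apply_symm_apply v
    rw [h2] at h1
    exact h1.symm

/-- application of an isometry -/
def ap (g : S.Iso) (v : ι → F) : ι → F := (g : (ι → F) ≃ₗ[F] (ι → F)) v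

theorem ap_q (g : S.Iso) (v : ι → F) : S.q (S.ap g v) = S.q v := g.2 v

theorem ap_add (g : S.Iso) (v w : ι → F) : S.ap g (v + w) = S.ap g v + S.ap g w :=
  map_add (g : (ι → F) ≃ₗ[F] (ι → F)) v w

theorem ap_sub (g : S.Iso) (v w : ι → F) : S.ap g (v - w) = S.ap g v - S.ap g w :=
  map_sub (g : (ι → F) ≃ₗ[F] (ι → F)) v w

theorem ap_smul (g : S.Iso) (c : F) (v : ι → F) : S.ap g (c • v) = c • S.ap g v :=
  map_smul (g : (ι → F) ≃ₗ[F] (ι → F)) c v

theorem ap_zero (g : S.Iso) : S.ap g 0 = 0 := map_zero (g : (ι → F) ≃ₗ[F] (ι → F))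

theorem ap_ne {g : S.Iso} {v : ι → F} (hv : v ≠ 0) : S.ap g v ≠ 0 := by
  intro h
  exact hv ((g : (ι → F) ≃ₗ[F] (ι → F)).injective (h.trans (S.ap_zero g).symm))

theorem ap_mul (g h : S.Iso) (v : ι → F) : S.ap (g * h) v = S.ap g (S.ap h v) := rfl

theorem ap_one (v : ι → F) : S.ap 1 v = v := rfl

theorem ap_inv_ap (g : S.Iso) (v : ι → F) : S.ap g⁻¹ (S.ap g v) = v := by
  rw [← ap_mul, inv_mul_cancel, ap_one]

theorem ap_ap_inv (g : S.Iso) (v : ι → F) : S.ap g (S.ap g⁻¹ v) = v := by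
  rw [← ap_mul, mul_inv_cancel, ap_one]

theorem ap_b (g : S.Iso) (v w : ι → F) : S.b (S.ap g v) (S.ap g w) = S.b v w := by
  show S.q (S.ap g v + S.ap g w) - S.q (S.ap g v) - S.q (S.ap g w) = S.q (v + w) - S.q v - S.q w
  rw [← ap_add, ap_q, ap_q, ap_q]

theorem ap_b_inv (g : S.Iso) (v w : ι → F) : S.b (S.ap g⁻¹ v) w = S.b v (S.ap g w) := by
  rw [← S.ap_b g, ap_ap_inv]

theorem ext_ap {g h : S.Iso} (H : ∀ v, S.ap g v = S.ap h v) : g = h :=
  Subtype.ext (LinearEquiv.ext H)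

/-- `g` raises the degree by at most `k` -/
def Bd (k : ℤ) (g : S.Iso) : Prop := ∀ v n, Nb δ v n → Nb δ (S.ap g v) (n + k)

theorem Bd.mono {k l : ℤ} {g : S.Iso} (h : S.Bd k g) (hkl : k ≤ l) : S.Bd l g :=
  fun v n hv => (h v n hv).mono (by omega)

theorem Bd_of0 {k : ℤ} {g : S.Iso} (h : ∀ v, Nb δ v 0 → Nb δ (S.ap g v) k) : S.Bd k g := by
  intro v n hv
  have h1 := h (S.pw (-n) • v) (by
    have := S.Nb_pw (-n) hv
    rwa [neg_add_cancel] at this)
  rw [ap_smul] at h1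
  have h2 : -n + (n + k) = k := by ring
  rw [← h2] at h1
  exact (S.Nb_pw_iff (-n)).mp h1

theorem Bd.at0 {k : ℤ} {g : S.Iso} (h : S.Bd k g) {v : ι → F} (hv : Nb δ v 0) :
    Nb δ (S.ap g v) k := by
  have := h v 0 hv
  rwa [zero_add] at this

theorem Bd.mul {k l : ℤ} {g h : S.Iso} (hg : S.Bd k g) (hh : S.Bd l h) : S.Bd (k + l) (g * h) := by
  intro v n hv
  rw [ap_mul]
  exact (hg _ _ (hh v n hv)).mono (by omega)

theorem Bd.inv {k : ℤ} {g : S.Iso} (hg : S.Bd k g) : S.Bd k g⁻¹ := by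
  apply Bd_of0
  intro v hv
  apply dual_n
  intro w hw
  rw [ap_b_inv]
  have := S.int_b hv (hg.at0 S hw)
  rwa [zero_add] at this

theorem Bd_one : S.Bd 0 1 := fun v n hv => by rw [ap_one, add_zero]; exact hv

theorem exists_Bd [Finite ι] (g : S.Iso) : ∃ k : ℤ, S.Bd k g := by
  classical
  have := Fintype.ofFinite ι
  have h1 : ∀ i : ι, ∃ k : ℤ, Nb δ (S.ap g (Pi.single i 1)) k := by
    intro i
    have hne : S.ap g (Pi.single i 1) ≠ 0 := S.ap_ne (by simp)
    exact ⟨_, (nm_le hne _).mpr le_rfl⟩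
  choose k hk using h1
  obtain ⟨m, hm⟩ := (Finset.univ.image k).exists_le
  refine ⟨m, S.Bd_of0 fun v hv => ?_⟩
  have e : v = ∑ i, v i • (Pi.single i (1 : F) : ι → F) := by
    funext j
    rw [Finset.sum_apply, Finset.sum_eq_single j]
    · rw [Pi.smul_apply, Pi.single_eq_same, smul_eq_mul, mul_one]
    · intro i _ hij
      rw [Pi.smul_apply, Pi.single_eq_of_ne hij.symm, smul_zero]
    · intro h
      exact absurd (Finset.mem_univ j) h
  have e2 : S.ap g v = ∑ i, v i • S.ap g (Pi.single i (1 : F)) := by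
    conv_lhs => rw [e]
    show (g : (ι → F) ≃ₗ[F] (ι → F)) _ = _
    rw [map_sum]
    refine Finset.sum_congr rfl fun i _ => ?_
    exact S.ap_smul g _ _
  rw [e2]
  refine Nb.sum _ _ fun i _ => ?_
  have h2 := Nb.smul (hv i) ((hk i).mono (hm _ (Finset.mem_image.mpr ⟨i, Finset.mem_univ _, rfl⟩)))
  rwa [zero_add] at h2

/-- the stabilizer of the standard lattice -/
def HH : Subgroup S.Iso where
  carrier := {g | S.Bd 0 g}
  one_mem' := S.Bd_one
  mul_mem' := fun ha hb => by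
    have := Bd.mul S ha hb
    rwa [add_zero] at this
  inv_mem' := fun ha => Bd.inv S ha

theorem mem_HH {g : S.Iso} : g ∈ S.HH ↔ S.Bd 0 g := Iff.rfl

theorem Bd.congr {k : ℤ} {g h₁ h₂ : S.Iso} (hg : S.Bd k g) (m₁ : h₁ ∈ S.HH) (m₂ : h₂ ∈ S.HH) :
    S.Bd k (h₁ * g * h₂) := by
  have := Bd.mul S (Bd.mul S m₁ hg) m₂
  rwa [zero_add, add_zero] at this

/-- elements which move the standard lattice by one -/
def A1 (z : S.Iso) : Prop := S.Bd 1 z ∧ ¬ S.Bd 0 z

theorem A1.inv {z : S.Iso} (hz : S.A1 z) : S.A1 z⁻¹ :=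
  ⟨Bd.inv S hz.1, fun h => hz.2 (by
    have := Bd.inv S h
    rwa [inv_inv] at this)⟩

theorem A1.congr {z h₁ h₂ : S.Iso} (hz : S.A1 z) (m₁ : h₁ ∈ S.HH) (m₂ : h₂ ∈ S.HH) :
    S.A1 (h₁ * z * h₂) := by
  refine ⟨Bd.congr S hz.1 m₁ m₂, fun h => hz.2 ?_⟩
  have h1 := Bd.congr S h (S.HH.inv_mem m₁) (S.HH.inv_mem m₂)
  have e : h₁⁻¹ * (h₁ * z * h₂) * h₂⁻¹ = z := by group
  rwa [e] at h1

end QS

end Pool.Agent.W2helper34.OT
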