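import Pool.Agent.W2helper34.OT.Fin

/-!
# Orthogonal groups over polynomial rings: the main theorem
-/

set_option autoImplicit false
set_option linter.unusedSectionVars false

namespace Pool.Agent.W2helper34.OT

open Pool.Agent.W2helper34.GT (Dg DegO DF exists_hom exists_Dg DF_mul DF_am am_ne degMv)
open Pool.Agent.Y110.FJ (ClosedE)
open MvPolynomial

theorem bf_eq {n : ℕ} {R : Type} [CommRing R] (A : Matrix (Fin n) (Fin n) R) (x y : Fin n → R) :
    bf A x y = dotProduct x (A.mulVec y) := by
  unfold bf dotProduct Matrix.mulVec dotProduct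
  refine Finset.sum_congr rfl fun i _ => ?_
  rw [Finset.mul_sum]
  exact Finset.sum_congr rfl fun j _ => by ring

/-- **Groups of isometries over polynomial rings.** -/
theorem ortho {C : ∀ (G : Type) [Group G], Prop} (hC : ClosedE C) {K : Type} [Field K]
    (h2 : (2 : K) ≠ 0) (hK : ∀ n, C (GL (Fin n) K)) {m n : ℕ}
    (A : Matrix (Fin n) (Fin n) K) (hA : A.IsSymm) (hdet : A.det ≠ 0)
    (hW : ∀ x y : Fin n → K, bf A x x = 0 → bf A y y = 0 → bf A x y = 0 →
      ∃ a b : K, (a ≠ 0 ∨ b ≠ 0) ∧ a • x + b • y = 0)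
    {F : Type} [Field F] [Algebra (MvPolynomial (Fin m) K) F]
    [IsFractionRing (MvPolynomial (Fin m) K) F] [Algebra K F]
    [IsScalarTower K (MvPolynomial (Fin m) K) F]
    (L : Submodule (MvPolynomial (Fin m) K) (Fin n → F)) (hL : L.FG)
    (hspan : Submodule.span F (L : Set (Fin n → F)) = ⊤) {G : Type} [Group G]
    (ρ : G →* Module.End F (Fin n → F)) (hinj : Function.Injective ρ)
    (hρ : ∀ g, ∀ x ∈ L, ρ g x ∈ L)
    (hq : ∀ g v, bf (AF m F A) (ρ g v) (ρ g v) = bf (AF m F A) v v) : C G := by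
  by_cases hD : ∃ x : F, x ≠ 0 ∧ DF (degMv K (Fin m)) x ≠ 0
  · obtain ⟨δ, e, he, hδ⟩ := exists_Dg (F := F) (degMv K (Fin m)) hD
    by_cases hiso : ∃ x : Fin n → K, x ≠ 0 ∧ bf A x x = 0
    · obtain ⟨x, hx, hxx⟩ := hiso
      refine lattice_C (degMv K (Fin m)) hC hK he hδ (QSA he hδ h2 A hA hdet hW x hx hxx) L hL hspan
        ρ hinj ?_ hρ
      intro g v
      show qF m F A (ρ g v) = qF m F A v
      rw [qF_apply, qF_apply]
      exact hq g v
    · push Not at hiso
      refine bounded_C (degMv K (Fin m)) hC hK L hL hspan ρ hinj hρ fun x _ => ?_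
      -- the norm
      have key : ∀ (v : Fin n → F) (i : Fin n), v i ≠ 0 → bf (AF m F A) v v ≠ 0 ∧
          2 * DF (degMv K (Fin m)) (v i) ≤ DF (degMv K (Fin m)) (bf (AF m F A) v v) := by
        intro v i hi
        obtain ⟨s, X, hs, hX⟩ := clear (m := m) (K := K) v
        have hXi : X i ≠ 0 := by
          intro h
          have h3 := hX i
          rw [h, map_zero] at h3
          exact mul_ne_zero (am_ne hs) hi h3.symm
        obtain ⟨h3, h4⟩ := aniso_poly A (fun x hx => by
          by_contra h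
          exact hiso x h hx) X i hXi
        have h5 := bf_AF A X X v v s s hX hX
        have h6 : bf (AF m F A) v v ≠ 0 := by
          intro h
          rw [h, mul_zero] at h5
          exact am_ne h3 h5
        refine ⟨h6, ?_⟩
        have h7 := DF_am (F := F) (degMv K (Fin m)) h3
        rw [h5, DF_mul _ (am_ne (mul_ne_zero hs hs)) h6, DF_am _ (mul_ne_zero hs hs)] at h7
        have h8 := DF_am (F := F) (degMv K (Fin m)) hXi
        rw [hX i, DF_mul _ (am_ne hs) hi, DF_am _ hs] at h8
        have h9 : ((degMv K (Fin m)).deg (s * s) : ℤ) =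
            (degMv K (Fin m)).deg s + (degMv K (Fin m)).deg s := by
          rw [(degMv K (Fin m)).mul s s hs hs]
          push_cast
          rfl
        have h10 : (2 * (degMv K (Fin m)).deg (X i) : ℤ) ≤
            (degMv K (Fin m)).deg (bf (A.map MvPolynomial.C) X X) := by exact_mod_cast h4
        omega
      refine ⟨|DF (degMv K (Fin m)) (bf (AF m F A) x x)|, fun g i hi => ?_⟩
      obtain ⟨_, h3⟩ := key (ρ g x) i hi
      rw [hq] at h3
      have h4 := le_abs_self (DF (degMv K (Fin m)) (bf (AF m F A) x x))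
      have h5 := abs_nonneg (DF (degMv K (Fin m)) (bf (AF m F A) x x))
      omega
  · push Not at hD
    exact bounded_C (degMv K (Fin m)) hC hK L hL hspan ρ hinj hρ fun x _ =>
      ⟨0, fun g i hi => (hD _ hi).le⟩

end Pool.Agent.W2helper34.OT
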