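import Pool.Agent.W2helper34.OT.Form

/-!
# Neighbours of the standard lattice
-/

set_option autoImplicit false

namespace Pool.Agent.W2helper34.OT

open Pool.Agent.W2helper34.GT (Dg)

variable {F ι : Type} [Field F] {δ : Dg F} (S : QS δ ι)

namespace QS

/-- primitive isotropic vectors -/
structure PI (w : ι → F) : Prop where
  iso : S.q w = 0
  int : Nb δ w 0
  prim : ¬ Nb δ w (-1)

variable {S}

theorem PI.bb {w : ι → F} (hw : S.PI w) : S.b w w = 0 := by
  rw [b_self, hw.iso, mul_zero]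

/-- the vectors of a neighbour -/
theorem PI.decomp {z : S.Iso} (hz : S.Bd 1 z) {w : ι → F} (hw : S.PI w)
    (hzw : Nb δ (S.ap z⁻¹ w) 0) {u : ι → F} (hu : Nb δ u 0) :
    ∃ c : F, M δ c 0 ∧ Nb δ (S.ap z u - (c * S.pw 1) • w) 0 := by
  have h1 : Nb δ (S.pw (-1) • S.ap z u) 0 := by
    have := S.Nb_pw (-1) (hz.at0 S hu)
    rwa [neg_add_cancel] at this
  obtain ⟨c, hc, h⟩ := S.residue hw.int hw.prim h1 (by rw [hw.iso]; exact M.zero _) (by
    rw [q_smul, ap_q]
    have := ((S.M_pw (-1)).mul (S.M_pw (-1))).mul (S.int _ hu)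
    exact this.mono (by norm_num)) (by
    have e0 : S.b (S.ap z u) w = S.b u (S.ap z⁻¹ w) := by
      have := S.ap_b_inv z⁻¹ u w
      rwa [inv_inv] at this
    rw [b_smul_left, e0]
    have := (S.M_pw (-1)).mul (S.int_b0 hu hzw)
    rwa [add_zero] at this)
  refine ⟨c, hc, ?_⟩
  have h2 := S.Nb_pw 1 h
  have e : S.pw 1 • (S.pw (-1) • S.ap z u - c • w) = S.ap z u - (c * S.pw 1) • w := by
    rw [smul_sub, smul_smul, smul_smul, pw_mul_neg, one_smul, mul_comm]
  rw [e] at h2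
  exact h2.mono (by norm_num)

/-- the level of an isotropic vector changes at a neighbour -/
theorem PI.ne {z : S.Iso} (hz : S.A1 z) {w : ι → F} (hw : S.PI w)
    (hzw : Nb δ (S.ap z⁻¹ w) 0) : Nb δ (S.ap z⁻¹ w) (-1) := by
  -- a vector of the neighbour outside the standard lattice
  obtain ⟨u₁, hu₁, hv₁⟩ : ∃ u₁, Nb δ u₁ 0 ∧ ¬ Nb δ (S.ap z u₁) 0 := by
    by_contra h
    push Not at h
    exact hz.2 (S.Bd_of0 h)
  obtain ⟨c₁, hc₁, h₁⟩ := hw.decomp hz.1 hzw hu₁
  have hc₁' : ¬ M δ c₁ (-1) := by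
    intro h
    apply hv₁
    have h2 : Nb δ ((c₁ * S.pw 1) • w) 0 := by
      have := Nb.smul (h.mul (S.M_pw 1)) hw.int
      simpa using this
    have := h₁.add h2
    rwa [sub_add_cancel] at this
  -- the key estimate
  have key : ∀ (v : ι → F) (c : F), M δ (S.q v) 0 → M δ c 0 → ¬ M δ c (-1) →
      Nb δ (v - (c * S.pw 1) • w) 0 → M δ (S.b w v) (-1) := by
    intro v c hq hc hc' hy
    obtain ⟨hc0, hcD⟩ := M.unit hc hc'
    set y := v - (c * S.pw 1) • w with hy'
    have e : v = y + (c * S.pw 1) • w := by rw [hy', sub_add_cancel]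
    have e1 : S.b w v = S.b w y := by
      rw [e, b_add_right, b_smul_right, hw.bb, mul_zero, add_zero]
    have e2 : S.q v = S.q y + (c * S.pw 1) * S.b w y := by
      rw [e, q_add, q_smul, hw.iso, mul_zero, add_zero, b_smul_right, b_comm]
    have h3 : M δ ((c * S.pw 1) * S.b w y) 0 := by
      have := hq.sub (S.int _ hy)
      rwa [e2, add_sub_cancel_left] at this
    rw [e1]
    refine M.cancel (c := c * S.pw 1) (mul_ne_zero hc0 (S.pw_ne 1)) (k := 1) ?_ (by
      simpa using h3)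
    rw [δ.mul _ _ hc0 (S.pw_ne 1), hcD, D_pw]
    rfl
  have hb₁ : M δ (S.b w (S.ap z u₁)) (-1) :=
    key _ c₁ (by rw [ap_q]; exact S.int _ hu₁) hc₁ hc₁' h₁
  apply dual_n
  intro u hu
  rw [ap_b_inv]
  obtain ⟨c, hc, h⟩ := hw.decomp hz.1 hzw hu
  by_cases hc' : M δ c (-1)
  · have h2 : M δ (S.b w (S.ap z (u + u₁))) (-1) := by
      refine key _ (c + c₁) (by rw [ap_q]; exact S.int _ (hu.add hu₁)) (hc.add hc₁) (fun h3 => ?_) ?_
      · apply hc₁'
        have := h3.sub hc'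
        rwa [add_sub_cancel_left] at this
      · have := h.add h₁
        have e : S.ap z u - (c * S.pw 1) • w + (S.ap z u₁ - (c₁ * S.pw 1) • w) =
          S.ap z (u + u₁) - ((c + c₁) * S.pw 1) • w := by
          rw [ap_add, add_mul, add_smul]
          abel
        rwa [e] at this
    rw [ap_add, b_add_right] at h2
    have := h2.sub hb₁
    rwa [add_sub_cancel_right] at this
  · exact key _ c (by rw [ap_q]; exact S.int _ hu) hc hc' h

/-- there is at most one neighbour where the level of an isotropic vector is smaller -/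
theorem PI.unique {z₁ z₂ : S.Iso} (h₁ : S.A1 z₁) (h₂ : S.A1 z₂) {w : ι → F} (hw : S.PI w)
    (e₁ : Nb δ (S.ap z₁⁻¹ w) (-1)) (e₂ : Nb δ (S.ap z₂⁻¹ w) (-1)) : z₁⁻¹ * z₂ ∈ S.HH := by
  apply S.Bd_of0
  intro u hu
  apply S.dual
  intro u' hu'
  show M δ (S.b (S.ap (z₁⁻¹ * z₂) u) u') 0
  rw [ap_mul, ap_b_inv]
  obtain ⟨c, hc, hy⟩ := hw.decomp h₂.1 (e₂.mono (by norm_num)) hu
  obtain ⟨c', hc', hy'⟩ := hw.decomp h₁.1 (e₁.mono (by norm_num)) hu'
  set y := S.ap z₂ u - (c * S.pw 1) • w with hyd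
  set y' := S.ap z₁ u' - (c' * S.pw 1) • w with hyd'
  have e : S.ap z₂ u = y + (c * S.pw 1) • w := by rw [hyd, sub_add_cancel]
  have e' : S.ap z₁ u' = y' + (c' * S.pw 1) • w := by rw [hyd', sub_add_cancel]
  have a1 : M δ (S.b w (S.ap z₁ u')) (-1) := by
    rw [← ap_b_inv]
    have := S.int_b e₁ hu'
    rwa [add_zero] at this
  have a2 : M δ (S.b w (S.ap z₂ u)) (-1) := by
    rw [← ap_b_inv]
    have := S.int_b e₂ hu
    rwa [add_zero] at this
  have a3 : M δ (S.b w y) (-1) := by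
    rw [e, b_add_right, b_smul_right, hw.bb, mul_zero, add_zero] at a2
    exact a2
  have e3 : S.b (S.ap z₂ u) (S.ap z₁ u') =
      S.b y y' + (c' * S.pw 1) * S.b w y + (c * S.pw 1) * S.b w (S.ap z₁ u') := by
    conv_lhs => rw [e, b_add_left, b_smul_left]
    congr 1
    rw [e', b_add_right, b_smul_right, S.b_comm y w]
  rw [e3]
  refine ((S.int_b0 hy hy').add ?_).add ?_
  · have := (hc'.mul (S.M_pw 1)).mul a3
    simpa using this
  · have := (hc.mul (S.M_pw 1)).mul a1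
    simpa using this

/-! ### hyperbolic pairs -/

variable (S)

/-- hyperbolic pairs in the standard lattice -/
structure HP (w s : ι → F) : Prop where
  pi : S.PI w
  iso : S.q s = 0
  int : Nb δ s 0
  one : S.b w s = 1

variable {S}

theorem HP.bss {w s : ι → F} (h : S.HP w s) : S.b s s = 0 := by
  rw [b_self, h.iso, mul_zero]

theorem PI.exists_HP {w : ι → F} (hw : S.PI w) : ∃ s, S.HP w s := by
  obtain ⟨y, hy, hb⟩ : ∃ y, Nb δ y 0 ∧ ¬ M δ (S.b w y) (-1) := by
    by_contra h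
    push Not at h
    exact hw.prim (S.dual_n h)
  obtain ⟨hb0, hbD⟩ := M.unit (S.int_b0 hw.int hy) hb
  obtain ⟨y', hy', hb'⟩ : ∃ y', Nb δ y' 0 ∧ S.b w y' = 1 := by
    refine ⟨(S.b w y)⁻¹ • y, ?_, by rw [b_smul_right, inv_mul_cancel₀ hb0]⟩
    have := Nb.smul (M.inv_unit hb0 hbD) hy
    rwa [add_zero] at this
  have hM : M δ (-(S.q y')) 0 := (S.int _ hy').neg
  refine ⟨y' + (-(S.q y')) • w, hw, ?_, ?_, ?_⟩
  · rw [q_add, q_smul, hw.iso, b_smul_right, b_comm, hb']
    ring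
  · have := Nb.smul hM hw.int
    rw [add_zero] at this
    exact hy'.add this
  · rw [b_add_right, b_smul_right, hw.bb, hb']
    ring

/-- the hyperbolic translation -/
noncomputable def tr {w s : ι → F} (h : S.HP w s) (t : F) (ht : t ≠ 0) : S.Iso :=
  have hpair : ∀ (a c : F) (v : ι → F),
      S.b (v + (a * S.b v s) • w + (c * S.b v w) • s) w = (1 + c) * S.b v w ∧
      S.b (v + (a * S.b v s) • w + (c * S.b v w) • s) s = (1 + a) * S.b v s := by
    intro a c v
    constructor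
    · rw [b_add_left, b_add_left, b_smul_left, b_smul_left, h.pi.bb, S.b_comm s w, h.one]
      ring
    · rw [b_add_left, b_add_left, b_smul_left, b_smul_left, h.bss, h.one]
      ring
  have hinv : ∀ (t : F), t ≠ 0 → ∀ v : ι → F,
      (v + ((t - 1) * S.b v s) • w + ((t⁻¹ - 1) * S.b v w) • s) +
      ((t⁻¹ - 1) * S.b (v + ((t - 1) * S.b v s) • w + ((t⁻¹ - 1) * S.b v w) • s) s) • w +
      ((t - 1) * S.b (v + ((t - 1) * S.b v s) • w + ((t⁻¹ - 1) * S.b v w) • s) w) • s = v := by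
    intro t ht v
    rw [(hpair _ _ v).1, (hpair _ _ v).2]
    have e1 : (t⁻¹ - 1) * ((1 + (t - 1)) * S.b v s) = -((t - 1) * S.b v s) := by
      field_simp
      ring
    have e2 : (t - 1) * ((1 + (t⁻¹ - 1)) * S.b v w) = -((t⁻¹ - 1) * S.b v w) := by
      field_simp
      ring
    rw [e1, e2, neg_smul, neg_smul]
    abel
  ⟨{ toFun := fun v => v + ((t - 1) * S.b v s) • w + ((t⁻¹ - 1) * S.b v w) • s
     map_add' := fun u v => by
      rw [b_add_left, b_add_left, mul_add, mul_add, add_smul, add_smul]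
      abel
     map_smul' := fun c v => by
      have e1 : (t - 1) * (c * S.b v s) = c * ((t - 1) * S.b v s) := by ring
      have e2 : (t⁻¹ - 1) * (c * S.b v w) = c * ((t⁻¹ - 1) * S.b v w) := by ring
      rw [b_smul_left, b_smul_left, RingHom.id_apply, smul_add, smul_add, smul_smul, smul_smul,
        e1, e2]
     invFun := fun v => v + ((t⁻¹ - 1) * S.b v s) • w + ((t - 1) * S.b v w) • s
     left_inv := fun v => hinv t ht v
     right_inv := fun v => by
      have := hinv t⁻¹ (inv_ne_zero ht) v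
      rw [inv_inv] at this
      exact this },
   by
    intro v
    show S.q (v + ((t - 1) * S.b v s) • w + ((t⁻¹ - 1) * S.b v w) • s) = S.q v
    rw [q_add, q_add, q_smul, q_smul, h.pi.iso, h.iso, b_smul_right, b_smul_right, b_add_left,
      b_smul_left, h.one]
    field_simp
    ring⟩

theorem tr_ap {w s : ι → F} (h : S.HP w s) (t : F) (ht : t ≠ 0) (v : ι → F) :
    S.ap (tr h t ht) v = v + ((t - 1) * S.b v s) • w + ((t⁻¹ - 1) * S.b v w) • s := rfl

theorem tr_w {w s : ι → F} (h : S.HP w s) (t : F) (ht : t ≠ 0) : S.ap (tr h t ht) w = t • w := by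
  rw [tr_ap, h.one, h.pi.bb, mul_zero, zero_smul, add_zero, mul_one, sub_smul, one_smul]
  abel

theorem tr_s {w s : ι → F} (h : S.HP w s) (t : F) (ht : t ≠ 0) : S.ap (tr h t ht) s = t⁻¹ • s := by
  rw [tr_ap, S.b_comm s w, h.one, h.bss, mul_zero, zero_smul, add_zero, mul_one, sub_smul, one_smul]
  abel

theorem tr_perp {w s : ι → F} (h : S.HP w s) (t : F) (ht : t ≠ 0) {v : ι → F} (hw : S.b v w = 0)
    (hs : S.b v s = 0) : S.ap (tr h t ht) v = v := by
  rw [tr_ap, hw, hs, mul_zero, mul_zero, zero_smul, zero_smul, add_zero, add_zero]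

theorem tr_mul {w s : ι → F} (h : S.HP w s) (t₁ t₂ : F) (h₁ : t₁ ≠ 0) (h₂ : t₂ ≠ 0) :
    tr h t₁ h₁ * tr h t₂ h₂ = tr h (t₁ * t₂) (mul_ne_zero h₁ h₂) := by
  apply S.ext_ap
  intro v
  rw [ap_mul, tr_ap h t₂, ap_add, ap_add, ap_smul, ap_smul, tr_w, tr_s, tr_ap, tr_ap, smul_smul,
    smul_smul]
  have e1 : ((t₁ - 1) * S.b v s) • w + ((t₂ - 1) * S.b v s * t₁) • w =
      ((t₁ * t₂ - 1) * S.b v s) • w := by
    rw [← add_smul]
    congr 1
    ring
  have e2 : ((t₁⁻¹ - 1) * S.b v w) • s + ((t₂⁻¹ - 1) * S.b v w * t₁⁻¹) • s =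
      (((t₁ * t₂)⁻¹ - 1) * S.b v w) • s := by
    rw [← add_smul]
    congr 1
    rw [mul_inv]
    ring
  rw [← e1, ← e2]
  abel

theorem tr_one {w s : ι → F} (h : S.HP w s) : tr h 1 one_ne_zero = 1 := by
  apply S.ext_ap
  intro v
  rw [tr_ap, inv_one, sub_self, zero_mul, zero_mul, zero_smul, zero_smul, ap_one, add_zero, add_zero]

theorem tr_inv {w s : ι → F} (h : S.HP w s) (t : F) (ht : t ≠ 0) :
    (tr h t ht)⁻¹ = tr h t⁻¹ (inv_ne_zero ht) := by
  rw [inv_eq_iff_mul_eq_one, tr_mul]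
  have : t * t⁻¹ = 1 := mul_inv_cancel₀ ht
  simp only [this]
  exact tr_one h

/-- the translation by one -/
theorem tr_A1 {w s : ι → F} (h : S.HP w s) : S.A1 (tr h (S.pw 1) (S.pw_ne 1)) := by
  refine ⟨S.Bd_of0 fun v hv => ?_, fun h1 => ?_⟩
  · rw [tr_ap]
    have e : (S.pw 1)⁻¹ = S.pw (-1) := (eq_inv_of_mul_eq_one_left (S.pw_neg_mul 1)).symm
    rw [e]
    have h1 : M δ (S.pw 1 - 1) 1 := (S.M_pw 1).sub (M.one.mono (by norm_num))
    have h2 : M δ (S.pw (-1) - 1) 0 := ((S.M_pw (-1)).mono (by norm_num)).sub M.one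
    refine ((hv.mono (by norm_num)).add ?_).add ?_
    · have := Nb.smul (h1.mul (S.int_b0 hv h.int)) h.pi.int
      simpa using this
    · have := Nb.smul (h2.mul (S.int_b0 hv h.pi.int)) h.int
      exact this.mono (by norm_num)
  · have h2 := h1.at0 S h.pi.int
    rw [tr_w] at h2
    apply h.pi.prim
    have e : (0 : ℤ) = 1 + -1 := by norm_num
    rw [e] at h2
    exact (S.Nb_pw_iff 1).mp h2

/-- the orthogonal complement of a hyperbolic pair is anisotropic -/
theorem HP.aniso [Finite ι] {w s : ι → F} (h : S.HP w s) {v : ι → F} (hw : S.b v w = 0)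
    (hs : S.b v s = 0) (hq : M δ (S.q v) 0) : Nb δ v 0 := by
  by_contra hn
  have hv0 : v ≠ 0 := by
    rintro rfl
    exact hn (Nb.zero 0)
  set n := nm δ v with hnd
  have hn1 : 0 < n := by
    by_contra hle
    exact hn ((nm_le hv0 0).mpr (by omega))
  set v' := S.pw (-n) • v with hvd
  have h1 : Nb δ v' 0 := by
    have := S.Nb_pw (-n) ((nm_le hv0 n).mpr le_rfl)
    rwa [neg_add_cancel] at this
  have h2 : ¬ Nb δ v' (-1) := by
    intro h2
    have e : (-1 : ℤ) = -n + (n - 1) := by ring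
    rw [e, hvd, S.Nb_pw_iff, nm_le hv0] at h2
    omega
  obtain ⟨c, hc, h3⟩ := S.residue h.pi.int h.pi.prim h1 (by rw [h.pi.iso]; exact M.zero _) (by
    rw [hvd, q_smul]
    exact (((S.M_pw (-n)).mul (S.M_pw (-n))).mul hq).mono (by omega)) (by
    rw [hvd, b_smul_left, hw, mul_zero]
    exact M.zero _)
  have h4 : M δ c (-1) := by
    have h5 := S.int_b h3 h.int
    rw [b_sub_left, hvd, b_smul_left, hs, mul_zero, b_smul_left, h.one, mul_one, zero_sub] at h5
    have := h5.neg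
    rwa [neg_neg, add_zero] at this
  apply h2
  have h5 := Nb.smul h4 h.pi.int
  rw [add_zero] at h5
  have := h3.add h5
  rwa [sub_add_cancel] at this

end QS

end Pool.Agent.W2helper34.OT
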