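import Pool.Agent.W2helper34.GT.Deg

/-!
# Quadratic spaces over a field with a discrete valuation

`M δ x n` means `deg x ≤ n`, and `Nb δ v n` means that all coordinates of `v` have degree at most `n`.
-/

set_option autoImplicit false

namespace Pool.Agent.W2helper34.OT

open Pool.Agent.W2helper34.GT (Dg)

section M

variable {F : Type} [Field F] (δ : Dg F)

/-- the degree of `x` is at most `n` -/
def M (x : F) (n : ℤ) : Prop := x ≠ 0 → δ.D x ≤ n

variable {δ}

theorem M.zero (n : ℤ) : M δ 0 n := fun h => absurd rfl h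

theorem M.mono {x : F} {n m : ℤ} (h : M δ x n) (hnm : n ≤ m) : M δ x m :=
  fun hx => (h hx).trans hnm

theorem M.add {x y : F} {n : ℤ} (hx : M δ x n) (hy : M δ y n) : M δ (x + y) n := by
  intro h
  by_cases h1 : x = 0
  · subst h1
    rw [zero_add] at h ⊢
    exact hy h
  by_cases h2 : y = 0
  · subst h2
    rw [add_zero] at h ⊢
    exact hx h
  have := δ.add x y h1 h2 h
  have := hx h1
  have := hy h2
  omega

theorem M.neg {x : F} {n : ℤ} (hx : M δ x n) : M δ (-x) n := by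
  intro h
  have h1 : x ≠ 0 := fun h' => h (by rw [h', neg_zero])
  rw [δ.neg x h1]
  exact hx h1

theorem M.sub {x y : F} {n : ℤ} (hx : M δ x n) (hy : M δ y n) : M δ (x - y) n := by
  rw [sub_eq_add_neg]
  exact hx.add hy.neg

theorem M.mul {x y : F} {n m : ℤ} (hx : M δ x n) (hy : M δ y m) : M δ (x * y) (n + m) := by
  intro h
  have h1 : x ≠ 0 := left_ne_zero_of_mul h
  have h2 : y ≠ 0 := right_ne_zero_of_mul h
  rw [δ.mul x y h1 h2]
  have := hx h1
  have := hy h2
  omega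

theorem M.self (x : F) : M δ x (δ.D x) := fun _ => le_rfl

theorem M.one : M δ 1 0 := fun _ => δ.one.le

theorem M.sum {κ : Type} (s : Finset κ) (f : κ → F) {n : ℤ} (h : ∀ i ∈ s, M δ (f i) n) :
    M δ (∑ i ∈ s, f i) n := by
  classical
  induction s using Finset.induction_on with
  | empty => rw [Finset.sum_empty]; exact M.zero n
  | insert a s ha ih =>
    rw [Finset.sum_insert ha]
    exact (h a (Finset.mem_insert_self a s)).add (ih fun i hi => h i (Finset.mem_insert_of_mem hi))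

/-- cancel a factor of degree exactly `k` -/
theorem M.cancel {c x : F} {k n : ℤ} (hc : c ≠ 0) (hk : δ.D c = k) (h : M δ (c * x) (k + n)) :
    M δ x n := by
  intro hx
  have h1 := h (mul_ne_zero hc hx)
  rw [δ.mul c x hc hx] at h1
  omega

theorem M.not {x : F} {n : ℤ} (h : ¬ M δ x n) : x ≠ 0 ∧ n < δ.D x := by
  unfold M at h
  push Not at h
  exact h

theorem M.unit {x : F} (h0 : M δ x 0) (h1 : ¬ M δ x (-1)) : x ≠ 0 ∧ δ.D x = 0 := by
  obtain ⟨hx, h2⟩ := M.not h1
  have := h0 hx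
  exact ⟨hx, by omega⟩

theorem M.inv_unit {x : F} (hx : x ≠ 0) (h : δ.D x = 0) : M δ x⁻¹ 0 := by
  intro _
  rw [δ.inv x hx, h]
  simp

theorem D_zpow {p : F} (hp : p ≠ 0) (h1 : δ.D p = 1) (n : ℤ) : δ.D (p ^ n) = n := by
  have hnat : ∀ n : ℕ, δ.D (p ^ n) = n := by
    intro n
    induction n with
    | zero => rw [pow_zero, δ.one]; rfl
    | succ n ih =>
      rw [pow_succ, δ.mul _ _ (pow_ne_zero n hp) hp, ih, h1]
      push_cast
      rfl
  rcases n with n | n
  · rw [Int.ofNat_eq_natCast, zpow_natCast]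
    exact hnat n
  · rw [zpow_negSucc, δ.inv _ (pow_ne_zero _ hp), hnat]
    rfl

end M

section Nb

variable {F ι : Type} [Field F] (δ : Dg F)

/-- all coordinates have degree at most `n` -/
def Nb (v : ι → F) (n : ℤ) : Prop := ∀ i, M δ (v i) n

variable {δ}

theorem Nb.zero (n : ℤ) : Nb δ (0 : ι → F) n := fun _ => M.zero n

theorem Nb.mono {v : ι → F} {n m : ℤ} (h : Nb δ v n) (hnm : n ≤ m) : Nb δ v m :=
  fun i => (h i).mono hnm

theorem Nb.add {v w : ι → F} {n : ℤ} (hv : Nb δ v n) (hw : Nb δ w n) : Nb δ (v + w) n :=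
  fun i => (hv i).add (hw i)

theorem Nb.neg {v : ι → F} {n : ℤ} (hv : Nb δ v n) : Nb δ (-v) n := fun i => (hv i).neg

theorem Nb.sub {v w : ι → F} {n : ℤ} (hv : Nb δ v n) (hw : Nb δ w n) : Nb δ (v - w) n :=
  fun i => (hv i).sub (hw i)

theorem Nb.smul {c : F} {v : ι → F} {k n : ℤ} (hc : M δ c k) (hv : Nb δ v n) :
    Nb δ (c • v) (k + n) := fun i => hc.mul (hv i)

theorem Nb.cancel {c : F} {v : ι → F} {k n : ℤ} (hc : c ≠ 0) (hk : δ.D c = k)
    (h : Nb δ (c • v) (k + n)) : Nb δ v n := fun i => M.cancel hc hk (h i)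

theorem Nb.sum {κ : Type} (s : Finset κ) (f : κ → ι → F) {n : ℤ} (h : ∀ i ∈ s, Nb δ (f i) n) :
    Nb δ (∑ i ∈ s, f i) n := by
  intro j
  rw [Finset.sum_apply]
  exact M.sum s _ fun i hi => h i hi j

theorem exists_norm [Finite ι] {v : ι → F} (hv : v ≠ 0) : ∃ N : ℤ, ∀ n, Nb δ v n ↔ N ≤ n := by
  classical
  have := Fintype.ofFinite ι
  obtain ⟨i₀, hi₀⟩ := Function.ne_iff.mp hv
  obtain ⟨j, hj, hmax⟩ := Finset.exists_max_image (Finset.univ.filter fun i => v i ≠ 0)
    (fun i => δ.D (v i)) ⟨i₀, by simpa using hi₀⟩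
  refine ⟨δ.D (v j), fun n => ⟨fun h => ?_, fun h i hi => ?_⟩⟩
  · exact h j (Finset.mem_filter.mp hj).2
  · exact (hmax i (by simpa using hi)).trans h

/-- the norm of a nonzero vector -/
noncomputable def nm (δ : Dg F) [Finite ι] (v : ι → F) : ℤ :=
  open Classical in if h : v ≠ 0 then (exists_norm (δ := δ) h).choose else 0

theorem nm_le [Finite ι] {v : ι → F} (hv : v ≠ 0) (n : ℤ) : Nb δ v n ↔ nm δ v ≤ n := by
  unfold nm
  rw [dif_pos hv]
  exact (exists_norm (δ := δ) hv).choose_spec n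

theorem nm_smul [Finite ι] {v : ι → F} (hv : v ≠ 0) {c : F} (hc : c ≠ 0) :
    nm δ (c • v) = δ.D c + nm δ v := by
  have hcv : c • v ≠ 0 := smul_ne_zero hc hv
  apply le_antisymm
  · rw [← nm_le hcv]
    exact Nb.smul (M.self c) ((nm_le hv _).mpr le_rfl)
  · have h1 : Nb δ (c • v) (δ.D c + (nm δ (c • v) - δ.D c)) := by
      rw [nm_le hcv]
      omega
    have h2 := (nm_le hv _).mp (Nb.cancel hc rfl h1)
    omega

end Nb

end Pool.Agent.W2helper34.OT
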