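import Pool.Agent.W2helper34.OT.Nbr
import Pool.Agent.W2helper34.GT.Tree

/-!
# The tree of an orthogonal group of residual Witt index one
-/

set_option autoImplicit false
set_option linter.unusedSectionVars false

namespace Pool.Agent.W2helper34.OT

open Pool.Agent.W2helper34.GT (Dg)

variable {F ι : Type} [Field F] {δ : Dg F} [Finite ι] (S : QS δ ι)

namespace QS

/-- the level -/
noncomputable def lv (g : S.Iso) : ℤ := nm δ (S.ap g⁻¹ S.e)

/-- the primitive vector -/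
noncomputable def wv (g : S.Iso) : ι → F := S.pw (-(S.lv g)) • S.ap g⁻¹ S.e

variable {S}

theorem ne_e (g : S.Iso) : S.ap g⁻¹ S.e ≠ 0 := S.ap_ne S.e_ne

theorem wv_e (g : S.Iso) : S.ap g⁻¹ S.e = S.pw (S.lv g) • S.wv g := by
  unfold wv
  rw [smul_smul, pw_mul_neg, one_smul]

theorem wv_PI (g : S.Iso) : S.PI (S.wv g) := by
  have h1 : ∀ n, Nb δ (S.wv g) n ↔ 0 ≤ n := by
    intro n
    have h2 : wv S g ≠ 0 := smul_ne_zero (S.pw_ne _) (ne_e g)
    rw [nm_le h2]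
    unfold wv
    rw [nm_smul (ne_e g) (S.pw_ne _), D_pw]
    unfold lv
    rw [neg_add_cancel]
  refine ⟨?_, (h1 0).mpr le_rfl, fun h => ?_⟩
  · unfold wv
    rw [q_smul, ap_q, S.e_iso, mul_zero]
  · have := (h1 (-1)).mp h
    omega

theorem PI.ne_zero {w : ι → F} (hw : S.PI w) : w ≠ 0 := by
  rintro rfl
  exact hw.prim (Nb.zero _)

theorem PI.nm {w : ι → F} (hw : S.PI w) : nm δ w = 0 := by
  have h1 := (nm_le hw.ne_zero 0).mp hw.int
  have h2 : ¬ OT.nm δ w ≤ -1 := fun h => hw.prim ((nm_le hw.ne_zero (-1)).mpr h)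
  omega

/-- the level of a product -/
theorem lv_mul (g z : S.Iso) {c : F} (hc : c ≠ 0) {w : ι → F} (hw : S.PI w)
    (h : S.ap g⁻¹ S.e = c • w) : S.lv (g * z) = S.lv g + OT.nm δ (S.ap z⁻¹ w) := by
  have e : S.ap (g * z)⁻¹ S.e = c • S.ap z⁻¹ w := by
    rw [mul_inv_rev, ap_mul, h, ap_smul]
  unfold lv
  rw [e, h, nm_smul (S.ap_ne hw.ne_zero) hc, nm_smul hw.ne_zero hc, hw.nm, add_zero]

theorem lv_H (g : S.Iso) {h : S.Iso} (hh : h ∈ S.HH) : S.lv (g * h) = S.lv g := by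
  have hw := wv_PI g
  rw [lv_mul g h (S.pw_ne _) hw (wv_e g)]
  have h0 : S.ap h⁻¹ (S.wv g) ≠ 0 := S.ap_ne hw.ne_zero
  have h1 : OT.nm δ (S.ap h⁻¹ (S.wv g)) ≤ 0 := by
    rw [← nm_le h0]
    exact Bd.at0 S (S.HH.inv_mem hh) hw.int
  have h2 : ¬ OT.nm δ (S.ap h⁻¹ (S.wv g)) ≤ -1 := by
    rw [← nm_le h0]
    intro h2
    apply hw.prim
    have := hh _ _ h2
    rwa [ap_ap_inv, add_zero] at this
  omega

theorem A1.lv {z : S.Iso} (hz : S.A1 z) (g : S.Iso) :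
    S.lv (g * z) = S.lv g - 1 ∨ S.lv (g * z) = S.lv g + 1 := by
  have hw := wv_PI g
  rw [lv_mul g z (S.pw_ne _) hw (wv_e g)]
  have h0 : S.ap z⁻¹ (S.wv g) ≠ 0 := S.ap_ne hw.ne_zero
  have h1 : OT.nm δ (S.ap z⁻¹ (S.wv g)) ≤ 1 := by
    rw [← nm_le h0]
    exact hz.inv.1.at0 S hw.int
  have h2 : ¬ OT.nm δ (S.ap z⁻¹ (S.wv g)) ≤ -2 := by
    rw [← nm_le h0]
    intro h2
    apply hw.prim
    have := hz.1 _ _ h2
    rwa [ap_ap_inv] at this
  have h3 : OT.nm δ (S.ap z⁻¹ (S.wv g)) ≤ 0 → OT.nm δ (S.ap z⁻¹ (S.wv g)) ≤ -1 := by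
    rw [← nm_le h0, ← nm_le h0]
    exact hw.ne hz
  by_cases h4 : OT.nm δ (S.ap z⁻¹ (S.wv g)) ≤ 0
  · have := h3 h4
    left
    omega
  · right
    omega

theorem lv_lower {z g : S.Iso} (h : S.lv (g * z) = S.lv g - 1) :
    Nb δ (S.ap z⁻¹ (S.wv g)) (-1) := by
  have hw := wv_PI g
  rw [lv_mul g z (S.pw_ne _) hw (wv_e g)] at h
  rw [nm_le (S.ap_ne hw.ne_zero)]
  omega

theorem parent_unique {g z₁ z₂ : S.Iso} (h₁ : S.A1 z₁) (h₂ : S.A1 z₂)
    (e₁ : S.lv (g * z₁) = S.lv g - 1) (e₂ : S.lv (g * z₂) = S.lv g - 1) : z₁⁻¹ * z₂ ∈ S.HH :=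
  (wv_PI g).unique h₁ h₂ (lv_lower e₁) (lv_lower e₂)

/-- the parent -/
theorem lv_tr {g : S.Iso} {w s : ι → F} (h : S.HP w s) {c : F} (hc : c ≠ 0)
    (e : S.ap g⁻¹ S.e = c • w) :
    S.lv (g * tr h (S.pw 1) (S.pw_ne 1)) = S.lv g - 1 := by
  rw [lv_mul g _ hc h.pi e, tr_inv, tr_w, nm_smul h.pi.ne_zero (inv_ne_zero (S.pw_ne 1)),
    δ.inv _ (S.pw_ne 1), D_pw, h.pi.nm]
  ring

variable (S)

/-- the vertices of the tree -/
abbrev VV : Type := S.Iso ⧸ S.HH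

/-- adjacency -/
def adj (u v : S.VV) : Prop := ∃ x z : S.Iso, S.A1 z ∧ u = (x : S.VV) ∧ v = ((x * z : S.Iso) : S.VV)

variable {S}

theorem adj_mk {x y : S.Iso} : S.adj (x : S.VV) (y : S.VV) ↔ S.A1 (x⁻¹ * y) := by
  constructor
  · rintro ⟨a, z, hz, h1, h2⟩
    rw [QuotientGroup.eq] at h1 h2
    have e : x⁻¹ * y = (x⁻¹ * a) * z * (y⁻¹ * (a * z))⁻¹ := by group
    rw [e]
    exact hz.congr S h1 (S.HH.inv_mem h2)
  · intro h
    exact ⟨x, x⁻¹ * y, h, rfl, by rw [mul_inv_cancel_left]⟩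

theorem adj_symm {u v : S.VV} (h : S.adj u v) : S.adj v u := by
  obtain ⟨x, z, hz, rfl, rfl⟩ := h
  exact ⟨x * z, z⁻¹, hz.inv, rfl, by rw [mul_inv_cancel_right]⟩

variable (S)

/-- the tree -/
def TT : SimpleGraph S.VV where
  Adj := S.adj
  symm := ⟨fun _ _ h => adj_symm h⟩
  loopless := ⟨by
    intro v h
    induction v using QuotientGroup.induction_on with
    | H x =>
      rw [adj_mk, inv_mul_cancel] at h
      exact h.2 S.Bd_one⟩

/-- the level of a vertex -/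
noncomputable def lam : S.VV → ℤ := Quotient.lift S.lv (by
  intro a b h
  have h' : a⁻¹ * b ∈ S.HH := QuotientGroup.leftRel_apply.mp h
  have := lv_H a h'
  rw [mul_inv_cancel_left] at this
  exact this.symm)

theorem lam_mk (x : S.Iso) : S.lam (x : S.VV) = S.lv x := rfl

theorem exists_par (v : S.VV) : ∃ w, S.adj v w ∧ S.lam w = S.lam v - 1 := by
  induction v using QuotientGroup.induction_on with
  | H x =>
    obtain ⟨s, h⟩ := (wv_PI x).exists_HP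
    exact ⟨((x * tr h (S.pw 1) (S.pw_ne 1) : S.Iso) : S.VV), ⟨x, _, tr_A1 h, rfl, rfl⟩,
      lv_tr h (S.pw_ne _) (wv_e x)⟩

/-- the parent -/
noncomputable def par (v : S.VV) : S.VV := (S.exists_par v).choose

theorem par_adj (v : S.VV) : S.adj v (S.par v) := (S.exists_par v).choose_spec.1

theorem par_lam (v : S.VV) : S.lam (S.par v) = S.lam v - 1 := (S.exists_par v).choose_spec.2

variable {S}

theorem adj_lam {u v : S.VV} (h : S.adj u v) : S.lam v = S.lam u - 1 ∨ S.lam v = S.lam u + 1 := by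
  obtain ⟨x, z, hz, rfl, rfl⟩ := h
  exact hz.lv x

theorem par_unique {v a b : S.VV} (ha : S.adj v a) (hb : S.adj v b)
    (h1 : S.lam a = S.lam v - 1) (h2 : S.lam b = S.lam v - 1) : a = b := by
  induction v using QuotientGroup.induction_on with
  | H x =>
  induction a using QuotientGroup.induction_on with
  | H y =>
  induction b using QuotientGroup.induction_on with
  | H z =>
    rw [adj_mk] at ha hb
    rw [lam_mk, lam_mk] at h1 h2
    rw [QuotientGroup.eq]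
    have h3 := parent_unique (g := x) ha hb (by rw [mul_inv_cancel_left]; exact h1)
      (by rw [mul_inv_cancel_left]; exact h2)
    have e : (x⁻¹ * y)⁻¹ * (x⁻¹ * z) = y⁻¹ * z := by group
    rwa [e] at h3

theorem pow_eq (n : ℕ) : S.pw 1 * S.pw n = S.pw ((n + 1 : ℕ) : ℤ) := by
  rw [← pw_add]
  congr 1
  push_cast
  ring

theorem par_iter {w s : ι → F} (h : S.HP w s) (n : ℕ) : ∀ (g : S.Iso) (c : F), c ≠ 0 →
    S.ap g⁻¹ S.e = c • w →
    (S.par)^[n] (g : S.VV) = ((g * tr h (S.pw n) (S.pw_ne n) : S.Iso) : S.VV) := by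
  induction n with
  | zero =>
    intro g c _ _
    have e : tr h (S.pw ((0 : ℕ) : ℤ)) (S.pw_ne _) = 1 := by
      have : S.pw ((0 : ℕ) : ℤ) = 1 := by simpa using S.pw_zero
      simp only [this]
      exact tr_one h
    rw [e, mul_one]
    rfl
  | succ n ih =>
    intro g c hc e
    have h1 : S.par (g : S.VV) = ((g * tr h (S.pw 1) (S.pw_ne 1) : S.Iso) : S.VV) := by
      refine par_unique (S.par_adj _) ?_ (S.par_lam _) (lv_tr h hc e)
      exact ⟨g, _, tr_A1 h, rfl, rfl⟩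
    rw [Function.iterate_succ_apply, h1, ih _ (c * (S.pw 1)⁻¹) (mul_ne_zero hc
      (inv_ne_zero (S.pw_ne 1))), mul_assoc, tr_mul]
    · simp only [pow_eq]
    · rw [mul_inv_rev, ap_mul, e, ap_smul, tr_inv, tr_w, smul_smul]

/-- the estimate for common ancestors -/
theorem tr_bound {w s : ι → F} (h : S.HP w s) {n k : ℤ} (hk : k ≤ n) {y : ι → F} (hy : Nb δ y k)
    (hw : M δ (S.b y w) (-n)) (hq : M δ (S.q y - S.b y s * S.b y w) 0) :
    Nb δ (S.ap (tr h (S.pw n) (S.pw_ne n))⁻¹ y) 0 := by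
  obtain ⟨y₀, hy₀⟩ : ∃ y₀, y₀ = y - (S.b y s) • w - (S.b y w) • s := ⟨_, rfl⟩
  have e : y = (S.b y s) • w + y₀ + (S.b y w) • s := by rw [hy₀]; abel
  have h1 : S.b y₀ w = 0 := by
    rw [hy₀, b_sub_left, b_sub_left, b_smul_left, b_smul_left, h.pi.bb, S.b_comm s w, h.one]
    ring
  have h2 : S.b y₀ s = 0 := by
    rw [hy₀, b_sub_left, b_sub_left, b_smul_left, b_smul_left, h.bss, h.one]
    ring
  have h3 : S.q y₀ = S.q y - S.b y s * S.b y w := by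
    have h4 : S.q y = S.q ((S.b y s) • w + y₀ + (S.b y w) • s) := by rw [← e]
    rw [h4, q_add, q_add, q_smul, q_smul, h.pi.iso, h.iso, b_smul_right, b_smul_left, b_add_left,
      b_smul_left, h2, h.one, S.b_comm w y₀, h1]
    ring
  have h4 : Nb δ y₀ 0 := h.aniso h1 h2 (by rw [h3]; exact hq)
  have e2 : S.ap (tr h (S.pw n) (S.pw_ne n))⁻¹ y =
      (S.pw (-n) * S.b y s) • w + y₀ + (S.pw n * S.b y w) • s := by
    have e3 : (S.pw n)⁻¹ = S.pw (-n) := (eq_inv_of_mul_eq_one_left (S.pw_neg_mul n)).symm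
    conv_lhs => rw [e]
    rw [ap_add, ap_add, ap_smul, ap_smul, tr_inv, tr_w, tr_s, tr_perp h _ _ h1 h2, inv_inv, e3,
      smul_smul, smul_smul, mul_comm, mul_comm (S.b y w)]
  rw [e2]
  refine (Nb.add ?_ h4).add ?_
  · have := Nb.smul ((S.M_pw (-n)).mul (S.int_b hy h.int)) h.pi.int
    exact this.mono (by omega)
  · have := Nb.smul ((S.M_pw n).mul hw) h.int
    exact this.mono (by omega)

theorem common (u v : S.VV) : ∃ n m : ℕ, (S.par)^[n] u = (S.par)^[m] v := by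
  induction u using QuotientGroup.induction_on with
  | H g₁ =>
  induction v using QuotientGroup.induction_on with
  | H g₂ =>
    obtain ⟨k', hk'⟩ := S.exists_Bd (g₁⁻¹ * g₂)
    obtain ⟨k, hk0, hk⟩ : ∃ k : ℤ, 0 ≤ k ∧ S.Bd k (g₁⁻¹ * g₂) :=
      ⟨max 0 k', le_max_left _ _, hk'.mono S (le_max_right _ _)⟩
    obtain ⟨s₁, h₁⟩ := (wv_PI g₁).exists_HP
    obtain ⟨s₂, h₂⟩ := (wv_PI g₂).exists_HP
    obtain ⟨n₁, n₂, hn₁, hn₂, hn⟩ : ∃ n₁ n₂ : ℕ, k ≤ n₁ ∧ k ≤ n₂ ∧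
        (n₁ : ℤ) - n₂ = S.lv g₁ - S.lv g₂ := by
      have a1 := neg_abs_le (S.lv g₁)
      have a2 := neg_abs_le (S.lv g₂)
      have a3 := abs_nonneg (S.lv g₁)
      have a4 := abs_nonneg (S.lv g₂)
      refine ⟨(k + |S.lv g₁| + |S.lv g₂| + S.lv g₁).toNat,
        (k + |S.lv g₁| + |S.lv g₂| + S.lv g₂).toNat, ?_, ?_, ?_⟩
      · rw [Int.toNat_of_nonneg (by omega)]
        omega
      · rw [Int.toNat_of_nonneg (by omega)]
        omega
      · rw [Int.toNat_of_nonneg (by omega), Int.toNat_of_nonneg (by omega)]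
        ring
    refine ⟨n₁, n₂, ?_⟩
    rw [par_iter h₁ n₁ g₁ _ (S.pw_ne _) (wv_e g₁), par_iter h₂ n₂ g₂ _ (S.pw_ne _) (wv_e g₂),
      QuotientGroup.eq]
    -- notation
    obtain ⟨γ, hγ⟩ : ∃ γ, γ = g₁⁻¹ * g₂ := ⟨_, rfl⟩
    rw [← hγ] at hk
    have e0 : (g₁ * tr h₁ (S.pw n₁) (S.pw_ne n₁))⁻¹ * (g₂ * tr h₂ (S.pw n₂) (S.pw_ne n₂)) =
        (tr h₁ (S.pw n₁) (S.pw_ne n₁))⁻¹ * (γ * tr h₂ (S.pw n₂) (S.pw_ne n₂)) := by
      rw [hγ]
      group
    rw [e0]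
    have hγw : S.ap γ (S.wv g₂) = S.pw (S.lv g₁ - S.lv g₂) • S.wv g₁ := by
      rw [hγ, ap_mul]
      have : S.ap g₂ (S.wv g₂) = S.pw (-(S.lv g₂)) • S.e := by
        unfold wv
        rw [ap_smul, ap_ap_inv]
      rw [this, ap_smul, wv_e, smul_smul, ← pw_add]
      congr 2
      ring
    have hγw' : S.wv g₁ = S.pw (-(S.lv g₁ - S.lv g₂)) • S.ap γ (S.wv g₂) := by
      rw [hγw, smul_smul, pw_neg_mul, one_smul]
    apply S.Bd_of0
    intro v hv
    obtain ⟨v₀, hv₀⟩ : ∃ v₀, v₀ = v - (S.b v s₂) • S.wv g₂ - (S.b v (S.wv g₂)) • s₂ := ⟨_, rfl⟩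
    have e : v = (S.b v s₂) • S.wv g₂ + v₀ + (S.b v (S.wv g₂)) • s₂ := by rw [hv₀]; abel
    have b1 : S.b v₀ (S.wv g₂) = 0 := by
      rw [hv₀, b_sub_left, b_sub_left, b_smul_left, b_smul_left, h₂.pi.bb, S.b_comm s₂, h₂.one]
      ring
    have b2 : S.b v₀ s₂ = 0 := by
      rw [hv₀, b_sub_left, b_sub_left, b_smul_left, b_smul_left, h₂.bss, h₂.one]
      ring
    have m1 : M δ (S.b v s₂) 0 := S.int_b0 hv h₂.int
    have m2 : M δ (S.b v (S.wv g₂)) 0 := S.int_b0 hv h₂.pi.int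
    have hv0 : Nb δ v₀ 0 := by
      rw [hv₀]
      have h3 := Nb.smul m1 h₂.pi.int
      have h4 := Nb.smul m2 h₂.int
      rw [add_zero] at h3 h4
      exact (hv.sub h3).sub h4
    -- the three parts
    have c1 : Nb δ (S.ap ((tr h₁ (S.pw n₁) (S.pw_ne n₁))⁻¹ *
        (γ * tr h₂ (S.pw n₂) (S.pw_ne n₂))) (S.wv g₂)) 0 := by
      rw [ap_mul, ap_mul, tr_w, ap_smul, hγw, ap_smul, ap_smul, tr_inv, tr_w, smul_smul, smul_smul]
      have e3 : (S.pw n₁)⁻¹ = S.pw (-n₁) := (eq_inv_of_mul_eq_one_left (S.pw_neg_mul n₁)).symm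
      rw [e3, ← pw_add, ← pw_add]
      have := S.Nb_pw ((n₂ : ℤ) + (S.lv g₁ - S.lv g₂) + -(n₁ : ℤ)) h₁.pi.int
      exact this.mono (by omega)
    have c2 : Nb δ (S.ap ((tr h₁ (S.pw n₁) (S.pw_ne n₁))⁻¹ *
        (γ * tr h₂ (S.pw n₂) (S.pw_ne n₂))) v₀) 0 := by
      rw [ap_mul, ap_mul, tr_perp h₂ _ _ b1 b2]
      have b3 : S.b (S.ap γ v₀) (S.wv g₁) = 0 := by
        rw [hγw', b_smul_right, ap_b, b1, mul_zero]
      refine tr_bound h₁ hn₁ (hk.at0 S hv0) ?_ ?_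
      · rw [b3]
        exact M.zero _
      · rw [b3, mul_zero, sub_zero, ap_q]
        exact S.int _ hv0
    have c3 : Nb δ (S.ap ((tr h₁ (S.pw n₁) (S.pw_ne n₁))⁻¹ *
        (γ * tr h₂ (S.pw n₂) (S.pw_ne n₂))) s₂) 0 := by
      rw [ap_mul, ap_mul, tr_s, ap_smul]
      have e3 : (S.pw n₂)⁻¹ = S.pw (-n₂) := (eq_inv_of_mul_eq_one_left (S.pw_neg_mul n₂)).symm
      rw [e3]
      have hy : Nb δ (S.pw (-n₂) • S.ap γ s₂) (k - n₂) := by
        have := S.Nb_pw (-n₂) (hk.at0 S h₂.int)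
        exact this.mono (by omega)
      have b3 : S.b (S.pw (-n₂) • S.ap γ s₂) (S.wv g₁) = S.pw (-n₁) := by
        rw [hγw', b_smul_left, b_smul_right, ap_b, S.b_comm s₂, h₂.one, mul_one, ← pw_add]
        congr 1
        omega
      refine tr_bound h₁ (k := k) hn₁ (hy.mono (by omega)) ?_ ?_
      · rw [b3]
        exact S.M_pw _
      · rw [b3, q_smul, ap_q, h₂.iso, mul_zero, zero_sub]
        refine M.neg ?_
        have := (S.int_b hy h₁.int).mul (S.M_pw (-n₁))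
        exact this.mono (by omega)
    rw [e, ap_add, ap_add, ap_smul, ap_smul]
    refine (Nb.add ?_ c2).add ?_
    · have := Nb.smul m1 c1
      rwa [add_zero] at this
    · have := Nb.smul m2 c3
      rwa [add_zero] at this

variable (S)

/-- the tree is a tree -/
theorem isTree : S.TT.IsTree :=
  Pool.Agent.W2helper34.GT.isTree_of_levels S.TT S.lam S.par (fun _ _ h => adj_lam h)
    (fun _ _ _ ha hb h1 h2 => par_unique ha hb h1 h2) S.par_adj common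

theorem TT_act (g : S.Iso) (u v : S.VV) (h : S.TT.Adj u v) : S.TT.Adj (g • u) (g • v) := by
  obtain ⟨x, z, hz, rfl, rfl⟩ := h
  refine ⟨g * x, z, hz, rfl, ?_⟩
  rw [mul_assoc]
  rfl

end QS

end Pool.Agent.W2helper34.OT
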